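import Mathlib
import Pool.Agent.TH41.BL.TR3

/-!
Q102/KB (helper102, MP_0430e4_lc): the test functions of the first branch are bounded from below by
an exponentially small negative number.  The proofs are mirror images of those of TH41/BL/TR3.
-/

set_option autoImplicit false

open MeasureTheory Filter Topology

namespace Pool.Agent.Q102.KB

open Pool.Agent.TH41.BL Pool.Agent.TH41.BL.TR3f

open Pool.Agent.TH41.LP.VVf

open Pool.Agent.TH41.BL.TRMf (SW pos_seg seg_bound re_div_two_pi)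

theorem SW_refl (Y : ℂ → ℂ) (T c ρ : ℝ) :
    SW Y T (-c) ρ = -SW (fun s => Y (-s)) T c (-ρ) := by
  unfold SW
  rw [← intervalIntegral.integral_neg]
  have h1 := intervalIntegral.integral_comp_neg (a := -T) (b := T) (fun t : ℝ =>
    Y (((-c : ℝ) : ℂ) + t * Complex.I) / (((-c : ℝ) : ℂ) + t * Complex.I) *
    Complex.exp (-(((-c : ℝ) : ℂ) + t * Complex.I) * (ρ : ℂ)))
  rw [neg_neg] at h1
  rw [← h1]
  apply intervalIntegral.integral_congr
  intro t _
  dsimp only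
  have e1 : ((-c : ℝ) : ℂ) + ((-t : ℝ) : ℂ) * Complex.I = -((c : ℂ) + t * Complex.I) := by
    push_cast
    ring
  rw [e1, div_neg, neg_neg]
  have e2 : ((-ρ : ℝ) : ℂ) = -(ρ : ℂ) := by push_cast; ring
  rw [e2, neg_mul_neg]
  ring

theorem pos_seg' {Y : ℂ → ℂ} {σ ρ V y0 T : ℝ} (hσ : 0 < σ)
    (hVσ : √V / 5 ≤ σ) (hV : 0 < V) (hy0 : 0 < y0) (hT : 3 * √V ≤ T)
    (h1 : ∀ t : ℝ, |t| ≤ T → ‖Y (σ + t * Complex.I)‖ ≤
      101 / 100 * y0 * Real.exp (-(49 / 100) * t ^ 2 / V))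
    (h2 : ∀ t : ℝ, |t| ≤ 3 * √V → ∃ m θ : ℝ, |θ| ≤ 1 / 1000 ∧
      99 / 100 * Real.exp (-(51 / 100) * t ^ 2 / V) ≤ m ∧
      Y (σ + t * Complex.I) = (y0 : ℂ) * (m : ℂ) *
        Complex.exp (((ρ * t + θ : ℝ) : ℂ) * Complex.I)) :
    0 ≤ (SW Y T σ ρ).re := by
  have hneg : ∀ t : ℝ, -(((-σ : ℝ) : ℂ) + t * Complex.I) = (σ : ℂ) + ((-t : ℝ) : ℂ) * Complex.I := by
    intro t
    push_cast
    ring
  have h3 := pos_seg (Y := fun s => Y (-s)) (σ := -σ) (ρ := -ρ) (V := V) (y0 := y0) (T := T)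
    (by linarith) (by rw [neg_neg]; exact hVσ) hV hy0 hT
    (fun t ht => by
      rw [hneg]
      have h4 := h1 (-t) (by rwa [abs_neg])
      rw [neg_sq] at h4
      exact h4)
    (fun t ht => by
      obtain ⟨m, θ, a1, a2, a3⟩ := h2 (-t) (by rwa [abs_neg])
      rw [neg_sq] at a2
      refine ⟨m, θ, a1, a2, ?_⟩
      rw [hneg, a3]
      congr 4
      ring)
  rw [SW_refl, neg_neg] at h3
  simp only [neg_neg] at h3
  rw [Complex.neg_re] at h3
  linarith

theorem vN_SW' {m C κ ε : ℝ} {n w : ℕ} (hc : Cn m C κ ε) {c : ℝ} (h0 : 0 < c)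
    (h1 : c ≤ κ) (h2 : C * c ≤ ε * (1 - Real.cos (1 / 1000)) / 2) :
    ((SW (Y3 m n ε) (1 / 1000) c (w : ℝ)).re -
      7 / (1 - Real.cos (1 / 1000)) * Real.exp (-(n * ε * (1 - Real.cos (1 / 1000)) / 2))) /
      (2 * Real.pi) ≤ (vN m n w ε c 0).re := by
  have hpi3 := Real.pi_gt_three
  have hpi : Real.pi < 3.15 := Real.pi_lt_d2
  have hd := d_pos
  set E := Real.exp (-(n * ε * (1 - Real.cos (1 / 1000)) / 2)) / (1 - Real.cos (1 / 1000))
    with hE
  have hE0 : 0 ≤ E := by positivity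
  have hcont := J3_cont (n := n) (w := w) hc h0 h1
  have hsplit : (∫ φ in (-Real.pi)..Real.pi, J3 m n w ε c φ) =
      (∫ φ in (-Real.pi)..(-(1 / 1000 : ℝ)), J3 m n w ε c φ) +
      (∫ φ in (-(1 / 1000 : ℝ))..(1 / 1000), J3 m n w ε c φ) +
      ∫ φ in (1 / 1000 : ℝ)..Real.pi, J3 m n w ε c φ := by
    rw [intervalIntegral.integral_add_adjacent_intervals (hcont.intervalIntegrable _ _)
      (hcont.intervalIntegrable _ _), intervalIntegral.integral_add_adjacent_intervals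
      (hcont.intervalIntegrable _ _) (hcont.intervalIntegrable _ _)]
  have hA : ‖∫ φ in (-Real.pi)..(-(1 / 1000 : ℝ)), J3 m n w ε c φ‖ ≤ E * Real.pi := by
    have h3 := intervalIntegral.norm_integral_le_of_norm_le_const (a := -Real.pi)
      (b := -(1 / 1000 : ℝ)) (f := J3 m n w ε c) (C := E) (by
        intro φ hφ
        rw [Set.uIoc_of_le (by linarith)] at hφ
        apply J3_outer hc h0 h1 h2
        rw [← Real.cos_neg φ]
        exact Real.cos_le_cos_of_nonneg_of_le_pi (by norm_num) (by linarith [hφ.1])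
          (by linarith [hφ.2]))
    refine h3.trans (mul_le_mul_of_nonneg_left ?_ hE0)
    rw [abs_of_nonneg (by linarith)]
    linarith
  have hB : ‖∫ φ in (1 / 1000 : ℝ)..Real.pi, J3 m n w ε c φ‖ ≤ E * Real.pi := by
    have h3 := intervalIntegral.norm_integral_le_of_norm_le_const (a := (1 / 1000 : ℝ))
      (b := Real.pi) (f := J3 m n w ε c) (C := E) (by
        intro φ hφ
        rw [Set.uIoc_of_le (by linarith)] at hφ
        apply J3_outer hc h0 h1 h2
        exact Real.cos_le_cos_of_nonneg_of_le_pi (by norm_num) hφ.2 hφ.1.le)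
    refine h3.trans (mul_le_mul_of_nonneg_left ?_ hE0)
    rw [abs_of_nonneg (by linarith)]
    linarith
  rw [vN_J, re_div_two_pi, hsplit, J3_mid hc h0, Complex.add_re, Complex.add_re]
  apply div_le_div_of_nonneg_right _ (by positivity)
  have h3 := (abs_le.1 ((Complex.abs_re_le_norm _).trans hA)).1
  have h4 := (abs_le.1 ((Complex.abs_re_le_norm _).trans hB)).1
  have h5 : E * Real.pi ≤ E * 3.15 := mul_le_mul_of_nonneg_left hpi.le hE0
  have h6 : 7 / (1 - Real.cos (1 / 1000)) *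
      Real.exp (-(n * ε * (1 - Real.cos (1 / 1000)) / 2)) = 7 * E := by
    rw [hE]
    ring
  rw [h6]
  linarith

/-- the bound on the left line -/
theorem caseB' {m C κ ε : ℝ} {n w : ℕ} (hc : Cn m C κ ε) (hn0 : 0 < n) {r : ℝ} (hr : 0 < r)
    (hrV : r ^ 2 = 1 / (n * ε)) (hrκ : r ≤ κ) (hr1 : r ≤ 1 / 60000)
    (hr3 : r ≤ ε / (108000 * C))
    (hcase : (w : ℝ) ≤ n * ((Nf m (r / 5 : ℝ)).re - ε * Real.exp (-(r / 5)))) :
    ‖SW (Y3 m n ε) (1 / 1000) (-(9 / 10 * r)) (w : ℝ)‖ ≤ 53 / 10 := by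
  have hε := hc.c5
  have hC := hc.c1
  have hn' : (0 : ℝ) < n := by exact_mod_cast hn0
  have hV : (0 : ℝ) < 1 / (n * ε) := by positivity
  have hsq : √(1 / (n * ε)) = r := by rw [← hrV, Real.sqrt_sq hr.le]
  have hnr : n * ε * r ^ 2 = 1 := by
    rw [hrV]
    field_simp
  have hc0 : 0 < 9 / 10 * r := by positivity
  have hcabs : |-(9 / 10 * r)| ≤ κ := by
    rw [abs_neg, abs_of_pos hc0]
    linarith
  have h2 := seg_bound (Y := Y3 m n ε) (c := -(9 / 10 * r)) (ρ := (w : ℝ)) (T := 1 / 1000)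
    (by norm_num) (neg_ne_zero.2 hc0.ne') hV (norm_nonneg (Y3 m n ε (-(9 / 10 * r) : ℝ)))
    (fun t ht => Y3_upper hc n hcabs t ht hn0)
  rw [abs_neg, abs_of_pos hc0, neg_neg] at h2
  -- the size on the real axis
  have hq7 := (abs_le.1 (hc.pb.p7 (-(9 / 10 * r)) hcabs).2).2
  rw [abs_neg, abs_of_pos hc0] at hq7
  have hq8 := (abs_le.1 (hc.pb.p8 (r / 5) (by
    rw [abs_of_pos (by positivity)]; linarith))).2
  have hsmall : n * C * r ^ 3 ≤ 1 / 108000 := by
    have h3 : n * C * r ^ 3 = (n * ε * r ^ 2) * (C * r / ε) := by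
      field_simp
    rw [h3, hnr]
    have h4 : C * r / ε ≤ 1 / 108000 := by
      rw [div_le_iff₀ hε]
      calc C * r ≤ C * (ε / (108000 * C)) := mul_le_mul_of_nonneg_left hr3 hC.le
        _ = 1 / 108000 * ε := by field_simp
    linarith
  have he1 : 1 - r / 5 ≤ Real.exp (-(r / 5)) := by
    have := Real.add_one_le_exp (-(r / 5))
    linarith
  have he2 : Real.exp (9 / 10 * r) ≤ 1 + 9 / 10 * r + (9 / 10 * r) ^ 2 / 2 +
      2 / 9 * (9 / 10 * r) ^ 3 := by
    have h := Real.exp_bound (x := 9 / 10 * r) (by rw [abs_of_pos hc0]; linarith) (n := 3)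
      (by norm_num)
    have h2 := (abs_le.1 h).2
    rw [abs_of_pos hc0] at h2
    simp only [Finset.sum_range_succ, Finset.sum_range_zero, Nat.factorial] at h2
    norm_num at h2
    linarith
  have hg : (w : ℝ) - n * (NR m 0) ≤ n * (C * r ^ 2 / 25) - n * ε * (1 - r / 5) := by
    have h3 : (Nf m (r / 5 : ℝ)).re ≤ NR m 0 + C * r ^ 2 / 25 := by
      have e : C * (r / 5) ^ 2 = C * r ^ 2 / 25 := by ring
      rw [e] at hq8
      linarith
    have h4 : ε * (1 - r / 5) ≤ ε * Real.exp (-(r / 5)) :=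
      mul_le_mul_of_nonneg_left he1 hε.le
    have h5 : n * ((Nf m (r / 5 : ℝ)).re - ε * Real.exp (-(r / 5))) ≤
        n * (NR m 0 + C * r ^ 2 / 25 - ε * (1 - r / 5)) :=
      mul_le_mul_of_nonneg_left (by linarith) hn'.le
    linarith
  have hH : ‖Hf (-(9 / 10 * r) : ℝ)‖ ≤ 1003 / 1000 := (Hf_norm (by
    rw [Complex.norm_real, Real.norm_eq_abs, abs_neg, abs_of_pos hc0]
    linarith)).2
  have h5 : ‖Y3 m n ε (-(9 / 10 * r) : ℝ)‖ * Real.exp (9 / 10 * r * (w : ℝ)) ≤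
      Real.exp (3 / 5) * (1003 / 1000) := by
    rw [Y3_norm0]
    calc Real.exp (n * (Ph m (-(9 / 10 * r) : ℝ)).re +
          n * ε * (Real.exp (-(-(9 / 10 * r))) - 1)) * ‖Hf (-(9 / 10 * r) : ℝ)‖ *
          Real.exp (9 / 10 * r * (w : ℝ))
        ≤ Real.exp (n * (Ph m (-(9 / 10 * r) : ℝ)).re +
          n * ε * (Real.exp (-(-(9 / 10 * r))) - 1)) * (1003 / 1000) *
          Real.exp (9 / 10 * r * (w : ℝ)) := by gcongr
      _ = Real.exp (n * (Ph m (-(9 / 10 * r) : ℝ)).re +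
          n * ε * (Real.exp (-(-(9 / 10 * r))) - 1) + 9 / 10 * r * (w : ℝ)) * (1003 / 1000) := by
          rw [Real.exp_add (n * (Ph m (-(9 / 10 * r) : ℝ)).re +
            n * ε * (Real.exp (-(-(9 / 10 * r))) - 1))]
          ring
      _ ≤ Real.exp (3 / 5) * (1003 / 1000) := by
          refine mul_le_mul_of_nonneg_right ?_ (by norm_num)
          rw [Real.exp_le_exp, neg_neg]
          have h6 : (9 / 10 * r) * ((w : ℝ) - n * (NR m 0)) ≤
              (9 / 10 * r) * (n * (C * r ^ 2 / 25) - n * ε * (1 - r / 5)) :=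
            mul_le_mul_of_nonneg_left hg (by positivity)
          have h7 : (9 / 10 * r) * (n * (C * r ^ 2 / 25) - n * ε * (1 - r / 5)) =
              36 / 1000 * (n * C * r ^ 3) - n * ε * (9 / 10 * r) +
              18 / 100 * (n * ε * r ^ 2) := by ring
          rw [h7, hnr] at h6
          have h8 : (n : ℝ) * (Ph m (-(9 / 10 * r) : ℝ)).re ≤
              n * (NR m 0 * -(9 / 10 * r) + C * (9 / 10 * r) ^ 3) :=
            mul_le_mul_of_nonneg_left (by linarith) hn'.le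
          have h9 : (n : ℝ) * ε * (Real.exp (9 / 10 * r) - 1) ≤
              n * ε * (9 / 10 * r + (9 / 10 * r) ^ 2 / 2 + 2 / 9 * (9 / 10 * r) ^ 3) :=
            mul_le_mul_of_nonneg_left (by linarith) (by positivity)
          have h10 : (n : ℝ) * ε * (9 / 10 * r + (9 / 10 * r) ^ 2 / 2 +
              2 / 9 * (9 / 10 * r) ^ 3) = n * ε * (9 / 10 * r) +
              405 / 1000 * (n * ε * r ^ 2) + 162 / 1000 * (n * ε * r ^ 2) * r := by ring
          rw [h10, hnr] at h9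
          have h11 : (n : ℝ) * (NR m 0 * -(9 / 10 * r) + C * (9 / 10 * r) ^ 3) =
              -((9 / 10 * r) * (n * NR m 0)) + 729 / 1000 * (n * C * r ^ 3) := by ring
          rw [h11] at h8
          nlinarith
  have h6 : Real.exp (3 / 5) * (1003 / 1000) ≤ 1823 / 1000 * (1003 / 1000) :=
    mul_le_mul_of_nonneg_right num_exp (by norm_num)
  have h7 := num_pi_sqrt hV
  rw [hsq] at h7
  refine h2.trans ?_
  calc 101 / 100 * ‖Y3 m n ε (-(9 / 10 * r) : ℝ)‖ * Real.exp (9 / 10 * r * (w : ℝ)) /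
        (9 / 10 * r) * √(Real.pi / ((49 / 100) / (1 / (n * ε))))
      = 101 / 100 * (‖Y3 m n ε (-(9 / 10 * r) : ℝ)‖ * Real.exp (9 / 10 * r * (w : ℝ))) /
        (9 / 10 * r) * √(Real.pi / ((49 / 100) / (1 / (n * ε)))) := by ring
    _ ≤ 101 / 100 * (1823 / 1000 * (1003 / 1000)) / (9 / 10 * r) * (2533 / 1000 * r) := by
        have h8 := h5.trans h6
        gcongr
    _ = 101 / 100 * (1823 / 1000 * (1003 / 1000)) * (2533 / 1000) / (9 / 10) := by field_simp
    _ ≤ 53 / 10 := by norm_num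

/-- the saddle on the right -/
theorem caseA' {m C κ ε : ℝ} {n w : ℕ} (hc : Cn m C κ ε) (hn0 : 0 < n) {r : ℝ} (hr : 0 < r)
    (hrV : r ^ 2 = 1 / (n * ε)) (hrκ : r ≤ κ) (hr1 : r ≤ 1 / 60000)
    (hr3 : r ≤ ε / (108000 * C))
    (hlow : n * ((Nf m (r / 5 : ℝ)).re - ε * Real.exp (-(r / 5))) ≤ w)
    (hhigh : (w : ℝ) ≤ n * ((Nf m (κ : ℝ)).re - ε * Real.exp (-κ))) :
    ∃ σ : ℝ, 0 < σ ∧ σ ≤ κ ∧ 0 ≤ (SW (Y3 m n ε) (1 / 1000) σ (w : ℝ)).re := by
  have hε := hc.c5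
  have hC := hc.c1
  have hκ := hc.c2
  have hn' : (0 : ℝ) < n := by exact_mod_cast hn0
  have hV : (0 : ℝ) < 1 / (n * ε) := by positivity
  have hsq : √(1 / (n * ε)) = r := by rw [← hrV, Real.sqrt_sq hr.le]
  have hnr : n * ε * r ^ 2 = 1 := by
    rw [hrV]
    field_simp
  -- the intermediate value theorem
  have hcont : ContinuousOn (fun σ : ℝ => n * ((Nf m σ).re - ε * Real.exp (-σ)))
      (Set.Icc (r / 5) κ) := by
    have h9 : ContinuousOn (fun σ : ℝ => (Nf m σ).re) (Set.Icc (r / 5) κ) :=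
      hc.pb.p10.mono (Set.Icc_subset_Icc (by linarith) le_rfl)
    exact continuousOn_const.mul (h9.sub (by fun_prop))
  obtain ⟨σ, hσ, hσρ⟩ := intermediate_value_Icc (by linarith) hcont ⟨hlow, hhigh⟩
  have hσpos : 0 < σ := by
    have := hσ.1
    linarith
  have hσabs : |σ| ≤ κ := by
    rw [abs_of_pos hσpos]
    exact hσ.2
  have hy0 : 0 < ‖Y3 m n ε σ‖ := by
    rw [Y3_norm0]
    have hs2 := (Hf_norm (s := (σ : ℂ)) (by
      rw [Complex.norm_real, Real.norm_eq_abs]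
      exact (hσabs.trans hc.c3).trans (by norm_num))).1
    have : 0 < ‖Hf (σ : ℂ)‖ := by linarith
    positivity
  refine ⟨σ, hσpos, hσ.2, ?_⟩
  refine pos_seg' (V := 1 / (n * ε)) (y0 := ‖Y3 m n ε σ‖) hσpos ?_ hV hy0 ?_ ?_ ?_
  · rw [hsq]
    linarith [hσ.1]
  · rw [hsq]
    linarith
  · exact fun t ht => Y3_upper hc n hσabs t ht hn0
  · intro t ht
    rw [hsq] at ht
    have h10 : |t| ^ 3 ≤ (3 * r) ^ 3 := pow_le_pow_left₀ (abs_nonneg _) ht 3
    have hθ1 : n * C * |t| ^ 3 ≤ 3 / 10000 := by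
      have h11 : n * C * (3 * r) ^ 3 = 27 * (n * ε * r ^ 2) * (C * r / ε) := by
        field_simp
        ring
      have h4 : C * r / ε ≤ 1 / 108000 := by
        rw [div_le_iff₀ hε]
        calc C * r ≤ C * (ε / (108000 * C)) := mul_le_mul_of_nonneg_left hr3 hC.le
          _ = 1 / 108000 * ε := by field_simp
      calc n * C * |t| ^ 3 ≤ n * C * (3 * r) ^ 3 :=
            mul_le_mul_of_nonneg_left h10 (by positivity)
        _ = 27 * (n * ε * r ^ 2) * (C * r / ε) := h11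
        _ ≤ 27 * 1 * (1 / 108000) := by
            rw [hnr]
            linarith
        _ ≤ 3 / 10000 := by norm_num
    have hθ2 : n * ε * |t| ^ 3 ≤ 5 / 10000 := by
      have h11 : n * ε * (3 * r) ^ 3 = 27 * (n * ε * r ^ 2) * r := by ring
      calc n * ε * |t| ^ 3 ≤ n * ε * (3 * r) ^ 3 :=
            mul_le_mul_of_nonneg_left h10 (by positivity)
        _ = 27 * (n * ε * r ^ 2) * r := h11
        _ ≤ 27 * 1 * (1 / 60000) := by
            rw [hnr]
            linarith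
        _ ≤ 5 / 10000 := by norm_num
    obtain ⟨M, θ, h1, h2, h3⟩ := Y3_phase hc n hσabs t (by linarith) hn0 hθ1 hθ2
    refine ⟨M, θ, h1, h2, ?_⟩
    rw [h3]
    simp only at hσρ
    rw [hσρ]

/-- the decay on the right -/
theorem caseC {m C κ ε : ℝ} {n w : ℕ} (hc : Cn m C κ ε) (hn0 : 0 < n) {r : ℝ} (hr : 0 < r)
    (hrV : r ^ 2 = 1 / (n * ε)) (hrκ : r ≤ κ)
    (hcase : n * ((Nf m (κ : ℝ)).re - ε * Real.exp (-κ)) ≤ w) :
    ‖SW (Y3 m n ε) (1 / 1000) κ (w : ℝ)‖ ≤ 3 * Real.exp (-(n * ε * κ ^ 2 / 4)) := by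
  have hε := hc.c5
  have hC := hc.c1
  have hκ := hc.c2
  have hκ1 := hc.c3
  have hn' : (0 : ℝ) < n := by exact_mod_cast hn0
  have hV : (0 : ℝ) < 1 / (n * ε) := by positivity
  have hsq : √(1 / (n * ε)) = r := by rw [← hrV, Real.sqrt_sq hr.le]
  have hcabs : |κ| ≤ κ := by rw [abs_of_pos hκ]
  have h2 := seg_bound (Y := Y3 m n ε) (c := κ) (ρ := (w : ℝ)) (T := 1 / 1000)
    (by norm_num) hκ.ne' hV (norm_nonneg (Y3 m n ε (κ : ℝ)))
    (fun t ht => Y3_upper hc n hcabs t ht hn0)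
  rw [abs_of_pos hκ] at h2
  have hq7 := (abs_le.1 (hc.pb.p7 κ hcabs).2).2
  rw [abs_of_pos hκ] at hq7
  have hq8 := (abs_le.1 (hc.pb.p8 κ hcabs)).1
  have he1 : Real.exp (-κ) ≤ 1 - κ + κ ^ 2 / 2 + 2 / 9 * κ ^ 3 :=
    exp_neg_upper hκ.le (by linarith)
  have hH := Hf_real hκ
  have h5 : ‖Y3 m n ε (κ : ℝ)‖ * Real.exp (-κ * (w : ℝ)) ≤ Real.exp (-(n * ε * κ ^ 2 / 4)) := by
    rw [Y3_norm0]
    calc Real.exp (n * (Ph m (κ : ℝ)).re + n * ε * (Real.exp (-κ) - 1)) * ‖Hf (κ : ℝ)‖ *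
          Real.exp (-κ * (w : ℝ))
        ≤ Real.exp (n * (Ph m (κ : ℝ)).re + n * ε * (Real.exp (-κ) - 1)) * 1 *
          Real.exp (-κ * (w : ℝ)) := by gcongr
      _ ≤ Real.exp (-(n * ε * κ ^ 2 / 4)) := by
          rw [mul_one, ← Real.exp_add, Real.exp_le_exp]
          have hw : -κ * (w : ℝ) ≤ -κ * (n * ((Nf m (κ : ℝ)).re - ε * Real.exp (-κ))) := by
            have := mul_le_mul_of_nonneg_left hcase hκ.le
            linarith
          have h6 : (Ph m (κ : ℝ)).re + ε * (Real.exp (-κ) - 1) -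
              κ * ((Nf m (κ : ℝ)).re - ε * Real.exp (-κ)) ≤ -(ε * κ ^ 2 / 4) := by
            have h7 : κ * (NR m 0 - C * κ ^ 2) ≤ κ * (Nf m (κ : ℝ)).re :=
              mul_le_mul_of_nonneg_left (by linarith) hκ.le
            have h8 : ε * (1 + κ) * Real.exp (-κ) ≤
                ε * (1 + κ) * (1 - κ + κ ^ 2 / 2 + 2 / 9 * κ ^ 3) :=
              mul_le_mul_of_nonneg_left he1 (by positivity)
            have h9 : C * κ * κ ^ 2 ≤ ε / 1000 * κ ^ 2 :=
              mul_le_mul_of_nonneg_right hc.c4 (sq_nonneg κ)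
            have h10 : ε * κ ^ 3 ≤ ε * κ ^ 2 * (1 / 10000) := by
              have : ε * κ ^ 3 = ε * κ ^ 2 * κ := by ring
              rw [this]
              exact mul_le_mul_of_nonneg_left hκ1 (by positivity)
            have h11 : ε * κ ^ 4 ≤ ε * κ ^ 2 * (1 / 10000) := by
              have : ε * κ ^ 4 = ε * κ ^ 2 * κ ^ 2 := by ring
              rw [this]
              refine mul_le_mul_of_nonneg_left ?_ (by positivity)
              nlinarith
            have h12 : 0 < ε * κ ^ 2 := by positivity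
            nlinarith
          have h13 := mul_le_mul_of_nonneg_left h6 hn'.le
          linarith
  have h7 := num_pi_sqrt hV
  rw [hsq] at h7
  refine h2.trans ?_
  have hE := Real.exp_pos (-(n * ε * κ ^ 2 / 4))
  calc 101 / 100 * ‖Y3 m n ε (κ : ℝ)‖ * Real.exp (-κ * (w : ℝ)) /
        κ * √(Real.pi / ((49 / 100) / (1 / (n * ε))))
      = 101 / 100 * (‖Y3 m n ε (κ : ℝ)‖ * Real.exp (-κ * (w : ℝ))) /
        κ * √(Real.pi / ((49 / 100) / (1 / (n * ε)))) := by ring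
    _ ≤ 101 / 100 * Real.exp (-(n * ε * κ ^ 2 / 4)) / κ * (2533 / 1000 * r) := by gcongr
    _ = (101 / 100 * (2533 / 1000) * Real.exp (-(n * ε * κ ^ 2 / 4))) * (r / κ) := by
        field_simp
    _ ≤ (101 / 100 * (2533 / 1000) * Real.exp (-(n * ε * κ ^ 2 / 4))) * 1 := by
        refine mul_le_mul_of_nonneg_left ?_ (by positivity)
        rw [div_le_one hκ]
        exact hrκ
    _ ≤ 3 * Real.exp (-(n * ε * κ ^ 2 / 4)) := by
        linarith

theorem low3 (hb : S3_pb) : ∀ m ε : ℝ, 0 < m → 0 < ε → ε ≤ 1 →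
    ∃ c₀ : ℝ, 0 < c₀ ∧ ∀ c : ℝ, 0 < c → c ≤ c₀ →
    ∃ ε₁ : ℝ, 0 < ε₁ ∧ ∃ n₀ : ℕ, ∀ n w : ℕ, n₀ ≤ n → w ≤ n →
      -Real.exp (-ε₁ * n) ≤ (vN m n w ε c 0).re := by
  intro m ε hm hε hε1
  obtain ⟨C, κ0, hC, hκ0, hκ0', hPB⟩ := hb m hm
  obtain ⟨d, hd⟩ : ∃ d : ℝ, d = 1 - Real.cos (1 / 1000) := ⟨_, rfl⟩
  have hdpos : 0 < d := by rw [hd]; exact d_pos
  set κ := min (min κ0 (1 / 10000)) (min (ε / (1000 * C)) (ε * d / (2 * (C + 3)))) with hκ
  have hκpos : 0 < κ := lt_min (lt_min hκ0 (by norm_num)) (lt_min (by positivity) (by positivity))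
  have hκκ : κ ≤ κ0 := (min_le_left _ _).trans (min_le_left _ _)
  have hκ1 : κ ≤ 1 / 10000 := (min_le_left _ _).trans (min_le_right _ _)
  have hκC : C * κ ≤ ε / 1000 := by
    calc C * κ ≤ C * (ε / (1000 * C)) :=
          mul_le_mul_of_nonneg_left ((min_le_right _ _).trans (min_le_left _ _)) hC.le
      _ = ε / 1000 := by field_simp
  have hsm : (C + 3) * κ ≤ ε * (1 - Real.cos (1 / 1000)) / 2 := by
    have h1 : κ ≤ ε * d / (2 * (C + 3)) := (min_le_right _ _).trans (min_le_right _ _)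
    rw [le_div_iff₀ (by positivity)] at h1
    rw [← hd]
    linarith
  have hcn : Cn m C κ ε := ⟨hC, hκpos, hκ1, hκC, hε, hε1, PB_mono hm hκpos hκκ hPB⟩
  set r0 := min κ (min (1 / 60000) (ε / (108000 * C))) with hr0
  have hr0pos : 0 < r0 := lt_min hκpos (lt_min (by norm_num) (by positivity))
  obtain ⟨K, hK⟩ : ∃ K : ℝ, K = 7 / d + 1 := ⟨_, rfl⟩
  have hKpos : 0 < K := by rw [hK]; positivity
  refine ⟨κ, hκpos, ?_⟩
  intro c hc hcκ
  -- the rate
  obtain ⟨e1, he1⟩ : ∃ e1 : ℝ, e1 = min (ε * d / 2) (ε * κ ^ 2 / 4) := ⟨_, rfl⟩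
  have he1pos : 0 < e1 := by
    rw [he1]
    exact lt_min (by positivity) (by positivity)
  have he1d : e1 ≤ ε * d / 2 := by
    rw [he1]
    exact min_le_left _ _
  have he1κ : e1 ≤ ε * κ ^ 2 / 4 := by
    rw [he1]
    exact min_le_right _ _
  refine ⟨e1 / 2, by positivity, ⌈1 / (ε * r0 ^ 2)⌉₊ + ⌈2 * (K + 3) / e1⌉₊ +
    ⌈80 * K / (ε * d)⌉₊ + 1, ?_⟩
  intro n w hn hw
  have hn0 : 0 < n := by omega
  have hn' : (0 : ℝ) < n := by exact_mod_cast hn0
  have hpi : (3.14 : ℝ) < Real.pi := Real.pi_gt_d2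
  have hpi0 : 0 < Real.pi := Real.pi_pos
  have hV : (0 : ℝ) < 1 / (n * ε) := by positivity
  set r := √(1 / (n * ε)) with hr
  have hrpos : 0 < r := Real.sqrt_pos.2 hV
  have hrV : r ^ 2 = 1 / (n * ε) := Real.sq_sqrt hV.le
  have hrr : r ≤ r0 := by
    rw [hr, Real.sqrt_le_left hr0pos.le, div_le_iff₀ (by positivity)]
    have h1 : 1 / (ε * r0 ^ 2) ≤ n := by
      refine (Nat.le_ceil _).trans ?_
      exact_mod_cast (show _ ≤ n by omega)
    rw [div_le_iff₀ (by positivity)] at h1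
    linarith
  have hrκ : r ≤ κ := hrr.trans (min_le_left _ _)
  have hr1 : r ≤ 1 / 60000 := hrr.trans ((min_le_right _ _).trans (min_le_left _ _))
  have hr3 : r ≤ ε / (108000 * C) := hrr.trans ((min_le_right _ _).trans (min_le_right _ _))
  -- the error
  have hq : K + 3 ≤ e1 / 2 * n := by
    have h1 : 2 * (K + 3) / e1 ≤ n := by
      refine (Nat.le_ceil _).trans ?_
      exact_mod_cast (show _ ≤ n by omega)
    rw [div_le_iff₀ (by positivity)] at h1
    linarith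
  obtain ⟨E, hE⟩ : ∃ E : ℝ, E = Real.exp (-(e1 / 2) * n) := ⟨_, rfl⟩
  have hE0 : 0 < E := by rw [hE]; exact Real.exp_pos _
  have hKE : (K + 3) * E ≤ 1 := by
    have h1 := Real.add_one_le_exp (e1 / 2 * n)
    have h2 : E = (Real.exp (e1 / 2 * n))⁻¹ := by
      rw [hE, ← Real.exp_neg]
      congr 1
      ring
    rw [h2, ← div_eq_mul_inv, div_le_one (Real.exp_pos _)]
    linarith
  have hEd : Real.exp (-(n * ε * d / 2)) ≤ E * E := by
    rw [hE, ← Real.exp_add, Real.exp_le_exp]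
    have h1 := mul_le_mul_of_nonneg_right he1d hn'.le
    linarith
  have hEκ : Real.exp (-(n * ε * κ ^ 2 / 4)) ≤ E * E := by
    rw [hE, ← Real.exp_add, Real.exp_le_exp]
    have h1 := mul_le_mul_of_nonneg_right he1κ hn'.le
    linarith
  have hEE : (K + 3) * (E * E) ≤ E := by
    calc (K + 3) * (E * E) = ((K + 3) * E) * E := by ring
      _ ≤ 1 * E := mul_le_mul_of_nonneg_right hKE hE0.le
      _ = E := one_mul E
  have hE1 : E ≤ 1 := by
    rw [hE, Real.exp_le_one_iff]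
    have : 0 ≤ e1 / 2 * n := by positivity
    linarith
  obtain ⟨hs1, hs2⟩ := shift (n := n) (w := w) hcn hw hsm
  have hCc : C * c ≤ ε * (1 - Real.cos (1 / 1000)) / 2 := by nlinarith
  have hv := vN_SW' (n := n) (w := w) hcn hc hcκ hCc
  rw [← hd] at hv hs1 hs2
  rw [← hE]
  refine le_trans ?_ hv
  rw [le_div_iff₀ (by positivity)]
  have hEd0 := Real.exp_pos (-(n * ε * d / 2))
  have hKK : (7 / d + 1) * Real.exp (-(n * ε * d / 2)) ≤ K * (E * E) := by
    rw [← hK]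
    exact mul_le_mul_of_nonneg_left hEd hKpos.le
  rcases le_or_gt (w : ℝ) (n * ((Nf m (r / 5 : ℝ)).re - ε * Real.exp (-(r / 5)))) with
    hcase | hcase
  · -- the left line
    have h1 := caseB' hcn hn0 hrpos hrV hrκ hr1 hr3 hcase
    have h2 := hs2 (-(9 / 10 * r)) c (by linarith) (by linarith) hc hcκ
    have h3 := (abs_le.1 ((Complex.abs_re_le_norm _).trans h2)).1
    have h4 := (abs_le.1 ((Complex.abs_re_le_norm _).trans h1)).1
    rw [Complex.sub_re, Complex.sub_re] at h3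
    have h6 : (2 * (Real.pi : ℂ)).re = 2 * Real.pi := by
      have : (2 * (Real.pi : ℂ)) = ((2 * Real.pi : ℝ) : ℂ) := by push_cast; rfl
      rw [this, Complex.ofReal_re]
    rw [h6] at h3
    have h7 : E * E ≤ 1 * (1 : ℝ) := mul_le_mul hE1 hE1 hE0.le zero_le_one
    nlinarith
  · rcases le_or_gt (w : ℝ) (n * ((Nf m (κ : ℝ)).re - ε * Real.exp (-κ))) with hc2 | hc2
    · obtain ⟨σ, h1, h2, h3⟩ := caseA' hcn hn0 hrpos hrV hrκ hr1 hr3 hcase.le hc2
      have h4 := hs1 c σ hc hcκ h1 h2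
      have h5 := (abs_le.1 ((Complex.abs_re_le_norm _).trans h4)).1
      rw [Complex.sub_re] at h5
      nlinarith
    · have h1 := caseC hcn hn0 hrpos hrV hrκ hc2.le
      have h4 := hs1 c κ hc hcκ hκpos le_rfl
      have h5 := (abs_le.1 ((Complex.abs_re_le_norm _).trans h4)).1
      have h6 := (abs_le.1 ((Complex.abs_re_le_norm _).trans h1)).1
      rw [Complex.sub_re] at h5
      nlinarith

end Pool.Agent.Q102.KB
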