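import Mathlib
import Pool.Agent.TH41.BL.Stm4
import Pool.Agent.TH41.BL.PUN
import Pool.Agent.TH41.BL.CE7
import Pool.Agent.TH41.BL.TH4
import Pool.Agent.TH41.BL.W3A

/-!
Q102/KB (helper102, MP_0430e4_lc): functions on a longer cube, and the threshold is positive.
-/

set_option autoImplicit false

open MeasureTheory Filter Topology

namespace Pool.Agent.Q102.KB

open Pool.Agent.TH41.BL

/-- one more coordinate -/
lemma kr_succ (n j w : ℕ) (hw : w ≤ n) :
    (kr (n + 1) (j + 1) w : ℝ) = (kr n (j + 1) w : ℝ) + (kr n j w : ℝ) := by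
  have h1 := PUNf.kr_coeff (n + 1) (j + 1) w (by omega)
  have h2 := PUNf.kr_coeff n (j + 1) w hw
  have h3 := PUNf.kr_coeff n j w hw
  have e1 : n + 1 - w = (n - w) + 1 := by omega
  have e2 : ((1 + Polynomial.X : Polynomial ℝ) ^ (n + 1 - w) * (1 - Polynomial.X) ^ w) =
      ((1 + Polynomial.X : Polynomial ℝ) ^ (n - w) * (1 - Polynomial.X) ^ w) +
        ((1 + Polynomial.X : Polynomial ℝ) ^ (n - w) * (1 - Polynomial.X) ^ w) *
          Polynomial.X := by
    rw [e1, pow_succ]
    ring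
  rw [← h1, ← h2, ← h3, e2, Polynomial.coeff_add, Polynomial.coeff_mul_X]

lemma kr_zero (n w : ℕ) : (kr n 0 w : ℝ) = 1 := by simp [kr]

lemma kr_top (n w : ℕ) (hw : w ≤ n) : (kr n (n + 1) w : ℝ) = 0 := by
  rw [← PUNf.kr_coeff n (n + 1) w hw]
  apply Polynomial.coeff_eq_zero_of_natDegree_lt
  refine lt_of_le_of_lt (Polynomial.natDegree_mul_le) ?_
  have h1 : ((1 + Polynomial.X : Polynomial ℝ) ^ (n - w)).natDegree ≤ n - w := by
    refine (Polynomial.natDegree_pow_le).trans ?_
    have h2 : (1 + Polynomial.X : Polynomial ℝ).natDegree ≤ 1 := by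
      refine (Polynomial.natDegree_add_le _ _).trans ?_
      simp
    calc (n - w) * _ ≤ (n - w) * 1 := Nat.mul_le_mul_left _ h2
      _ = n - w := by ring
  have h3 : ((1 - Polynomial.X : Polynomial ℝ) ^ w).natDegree ≤ w := by
    refine (Polynomial.natDegree_pow_le).trans ?_
    have h2 : (1 - Polynomial.X : Polynomial ℝ).natDegree ≤ 1 := by
      refine (Polynomial.natDegree_sub_le _ _).trans ?_
      simp
    calc w * _ ≤ w * 1 := Nat.mul_le_mul_left _ h2
      _ = w := by ring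
  omega

lemma choose_tr (n : ℕ) (f : ℕ → ℝ) (j : ℕ) :
    (n.choose j : ℝ) * tr n f j = (√2 ^ n)⁻¹ *
      ∑ w ∈ Finset.range (n + 1), (n.choose w : ℝ) * f w * (kr n j w : ℝ) := by
  unfold tr
  rw [mul_left_comm, Finset.mul_sum]
  congr 1
  refine Finset.sum_congr rfl fun w hw => ?_
  have hw' : w ≤ n := by
    have := Finset.mem_range.1 hw
    omega
  have h := CE7f.kr_symm n j w hw'
  calc (n.choose j : ℝ) * (f w * (kr n w j : ℝ)) = f w * ((n.choose j : ℝ) * (kr n w j : ℝ)) := by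
        ring
    _ = _ := by
        rw [h]
        ring

/-- the norm of the extension by zero -/
lemma NN_succ (n : ℕ) (f F : ℕ → ℝ)
    (hF : ∀ w, w ≤ n + 1 → ((n + 1).choose w : ℝ) * F w = (n.choose w : ℝ) * f w) :
    NN (n + 1) F ≤ √2 * NN n f := by
  obtain ⟨c, hc⟩ : ∃ c : ℕ → ℝ, c = fun j => (√2 ^ n)⁻¹ *
    ∑ w ∈ Finset.range (n + 1), (n.choose w : ℝ) * f w * (kr n j w : ℝ) := ⟨_, rfl⟩
  have hcj : ∀ j, (n.choose j : ℝ) * |tr n f j| = |c j| := by
    intro j
    have h1 : c j = (n.choose j : ℝ) * tr n f j := by rw [hc, choose_tr]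
    rw [h1, abs_mul, abs_of_nonneg (Nat.cast_nonneg (α := ℝ) (n.choose j))]
  have hs2 : (0 : ℝ) < √2 := by positivity
  have hn : √2 ^ (n + 1) = √2 ^ n * √2 := pow_succ _ _
  have hsum : ∀ j, ∑ w ∈ Finset.range (n + 1 + 1), ((n + 1).choose w : ℝ) * F w *
      (kr (n + 1) j w : ℝ) = ∑ w ∈ Finset.range (n + 1), (n.choose w : ℝ) * f w *
      (kr (n + 1) j w : ℝ) := by
    intro j
    rw [Finset.sum_range_succ]
    have h1 : ((n + 1).choose (n + 1) : ℝ) * F (n + 1) * (kr (n + 1) j (n + 1) : ℝ) = 0 := by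
      rw [hF (n + 1) le_rfl, Nat.choose_succ_self]
      simp
    rw [h1, add_zero]
    refine Finset.sum_congr rfl fun w hw => ?_
    rw [hF w (by have := Finset.mem_range.1 hw; omega)]
  have hterm : ∀ j, ((n + 1).choose (j + 1) : ℝ) * |tr (n + 1) F (j + 1)| ≤
      (√2)⁻¹ * (|c (j + 1)| + |c j|) := by
    intro j
    have h1 : ((n + 1).choose (j + 1) : ℝ) * |tr (n + 1) F (j + 1)| =
        |((n + 1).choose (j + 1) : ℝ) * tr (n + 1) F (j + 1)| := by
      rw [abs_mul, abs_of_nonneg (Nat.cast_nonneg (α := ℝ) ((n + 1).choose (j + 1)))]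
    have h2 : ((n + 1).choose (j + 1) : ℝ) * tr (n + 1) F (j + 1) =
        (√2)⁻¹ * (c (j + 1) + c j) := by
      rw [choose_tr, hsum, hn, hc]
      simp only
      rw [← mul_add, ← Finset.sum_add_distrib, ← mul_assoc, mul_inv, mul_comm (√2)⁻¹]
      congr 1
      refine Finset.sum_congr rfl fun w hw => ?_
      rw [kr_succ n j w (by have := Finset.mem_range.1 hw; omega)]
      ring
    rw [h1, h2, abs_mul, abs_of_pos (inv_pos.2 hs2)]
    exact mul_le_mul_of_nonneg_left (abs_add_le _ _) (inv_pos.2 hs2).le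
  have hzero : ((n + 1).choose 0 : ℝ) * |tr (n + 1) F 0| ≤ (√2)⁻¹ * |c 0| := by
    have h1 : ((n + 1).choose 0 : ℝ) * |tr (n + 1) F 0| =
        |((n + 1).choose 0 : ℝ) * tr (n + 1) F 0| := by
      rw [abs_mul, abs_of_nonneg (Nat.cast_nonneg (α := ℝ) ((n + 1).choose 0))]
    have h2 : ((n + 1).choose 0 : ℝ) * tr (n + 1) F 0 = (√2)⁻¹ * c 0 := by
      rw [choose_tr, hsum, hn, hc]
      simp only
      rw [← mul_assoc, mul_inv, mul_comm (√2)⁻¹]
      congr 1
      refine Finset.sum_congr rfl fun w _ => ?_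
      rw [kr_zero, kr_zero]
    rw [h1, h2, abs_mul, abs_of_pos (inv_pos.2 hs2)]
  have hctop : c (n + 1) = 0 := by
    rw [hc]
    simp only
    rw [Finset.sum_eq_zero, mul_zero]
    intro w hw
    rw [kr_top n w (by have := Finset.mem_range.1 hw; omega), mul_zero]
  have hNN : NN n f = ∑ j ∈ Finset.range (n + 1), |c j| := by
    unfold NN
    exact Finset.sum_congr rfl fun j _ => hcj j
  have hsq : (√2)⁻¹ * 2 = √2 := by
    rw [inv_mul_eq_div, div_eq_iff hs2.ne']
    exact (Real.mul_self_sqrt (by norm_num)).symm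
  unfold NN at *
  rw [Finset.sum_range_succ', hNN]
  have h3 : ∑ j ∈ Finset.range (n + 1), ((n + 1).choose (j + 1) : ℝ) * |tr (n + 1) F (j + 1)| ≤
      ∑ j ∈ Finset.range (n + 1), (√2)⁻¹ * (|c (j + 1)| + |c j|) :=
    Finset.sum_le_sum fun j _ => hterm j
  have h4 : ∑ j ∈ Finset.range (n + 1), |c (j + 1)| + |c 0| = ∑ j ∈ Finset.range (n + 1), |c j| := by
    have h5 := Finset.sum_range_succ' (fun j => |c j|) (n + 1)
    have h6 := Finset.sum_range_succ (fun j => |c j|) (n + 1)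
    rw [hctop, abs_zero, add_zero] at h6
    rw [← h5, h6]
  rw [← Finset.mul_sum, Finset.sum_add_distrib] at h3
  calc _ ≤ (√2)⁻¹ * (∑ j ∈ Finset.range (n + 1), |c (j + 1)| +
        ∑ j ∈ Finset.range (n + 1), |c j|) + (√2)⁻¹ * |c 0| := add_le_add h3 hzero
    _ = (√2)⁻¹ * 2 * ∑ j ∈ Finset.range (n + 1), |c j| := by
        rw [← h4]
        ring
    _ = _ := by rw [hsq]

/-- the norm of the extension by zero, several coordinates -/
lemma NN_add (q n : ℕ) (f F : ℕ → ℝ)
    (hF : ∀ w, w ≤ n + q → ((n + q).choose w : ℝ) * F w = (n.choose w : ℝ) * f w) :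
    NN (n + q) F ≤ √2 ^ q * NN n f := by
  induction q generalizing F with
  | zero =>
    have h1 : NN n F = NN n f := by
      unfold NN
      refine Finset.sum_congr rfl fun j _ => ?_
      have h2 : (n.choose j : ℝ) * tr n F j = (n.choose j : ℝ) * tr n f j := by
        rw [choose_tr, choose_tr]
        congr 1
        refine Finset.sum_congr rfl fun w hw => ?_
        have := hF w (by have := Finset.mem_range.1 hw; omega)
        rw [Nat.add_zero] at this
        rw [this]
      rw [← abs_of_nonneg (Nat.cast_nonneg (α := ℝ) (n.choose j)), ← abs_mul, ← abs_mul, h2]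
    rw [Nat.add_zero, h1, pow_zero, one_mul]
  | succ q ih =>
    obtain ⟨G, hG⟩ : ∃ G : ℕ → ℝ, G = fun w => (n.choose w : ℝ) * f w / ((n + q).choose w : ℝ) :=
      ⟨_, rfl⟩
    have hG1 : ∀ w, w ≤ n + q → ((n + q).choose w : ℝ) * G w = (n.choose w : ℝ) * f w := by
      intro w hw
      have h1 : ((n + q).choose w : ℝ) ≠ 0 := by
        exact_mod_cast (Nat.choose_pos hw).ne'
      rw [hG]
      simp only
      field_simp
    have h2 := ih G hG1
    have h3 := NN_succ (n + q) G F (by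
      intro w hw
      rw [show n + q + 1 = n + (q + 1) by ring, hF w (by omega)]
      rcases Nat.lt_or_ge (n + q) w with h4 | h4
      · rw [Nat.choose_eq_zero_of_lt h4, Nat.choose_eq_zero_of_lt (by omega : n < w)]
        simp
      · rw [hG1 w h4])
    rw [show n + (q + 1) = n + q + 1 by ring]
    have hs2 : (0 : ℝ) ≤ √2 := Real.sqrt_nonneg _
    calc NN (n + q + 1) F ≤ √2 * NN (n + q) G := h3
      _ ≤ √2 * (√2 ^ q * NN n f) := mul_le_mul_of_nonneg_left h2 hs2
      _ = √2 ^ (q + 1) * NN n f := by ring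

lemma THR_pos (hw : S4_w) {m : ℝ} (hm : 0 < m) : 0 < THR 0 m := by
  unfold THR
  refine mul_pos (by simp) ?_
  have h1 : IntervalIntegrable (fun y => 2 * WN y / √(y - 0)) volume 0 m := by
    rw [intervalIntegrable_iff, Set.uIoc_of_le hm.le]
    exact (TH4f.fr_integrable hw le_rfl).mono_set Set.Ioc_subset_Ioi_self
  refine intervalIntegral.intervalIntegral_pos_of_pos_on h1 (fun y hy => ?_) hm
  have h2 := W3Af.W_pos hy.1.le
  have h3 : 0 < √(y - 0) := Real.sqrt_pos.2 (by linarith [hy.1])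
  positivity

end Pool.Agent.Q102.KB
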