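import Mathlib
import Pool.Agent.TH41.BL.VT4
import Pool.Agent.Q102.KB.Up

/-!
Q102/KB (helper102, MP_0430e4_lc): test functions of the second branch which are bounded from below
by an exponentially small negative number: means of two test functions with opposite signs at the
right end, for two lengths.
-/

set_option autoImplicit false

open MeasureTheory Filter Topology

namespace Pool.Agent.Q102.KB

open Pool.Agent.TH41.BL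

/-- one segment -/
theorem seg4 (hl : S4_left) (htr : S4_trans) (T C κ : ℝ) (hT : 0 < T) (hC : 0 < C) (hκ : 0 < κ)
    (hκ' : κ ≤ Real.pi / 16) (ε η : ℝ) (hε : 0 < ε) (hε1 : ε ≤ 1) (hη : |η| ≤ 1) :
    ∃ Δ₀ : ℝ, 0 < Δ₀ ∧ ∀ Δ : ℝ, 0 < Δ → Δ ≤ Δ₀ →
    ∃ c₀ : ℝ, 0 < c₀ ∧ ∀ c : ℝ, 0 < c → c ≤ c₀ →
    ∃ e : ℝ, 0 < e ∧ ∃ n₀ : ℕ, ∀ n : ℕ, n₀ ≤ n →
    ∀ (Q : ℂ → ℂ) (g γ : ℝ → ℝ) (b : ℝ), QBG Q g γ b T C κ n →
      -Real.exp (-e * n) ≤ (vS Q T n ε η c 0).re ∧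
      (vS Q T n ε η c 0).re ≤ 1 + Real.exp (-e * n) ∧
      (b ≤ η → (vS Q T n ε η c 0).re ≤ 5 / 6) ∧
      (η + Δ ≤ b → 1 - Real.exp (-e * n) ≤ (vS Q T n ε η c 0).re) ∧
      (b ≤ η - Δ → (vS Q T n ε η c 0).re ≤ Real.exp (-e * n)) := by
  obtain ⟨Δ₀, hΔ₀, c1, hc1, h1⟩ := htr T C κ hT hC hκ hκ' ε η hε hε1 hη
  refine ⟨Δ₀, hΔ₀, fun Δ hΔ hΔΔ => ?_⟩
  obtain ⟨c2, hc2, h2⟩ := hl T C κ hT hC hκ hκ' ε η Δ T hε hη hΔ hT
  refine ⟨min c1 c2, lt_min hc1 hc2, fun c hc hcc => ?_⟩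
  obtain ⟨e1, he1, n1, h1'⟩ := h1 c hc (hcc.trans (min_le_left _ _))
  obtain ⟨e2, he2, n2, h2'⟩ := h2 c hc (hcc.trans (min_le_right _ _))
  refine ⟨min e1 e2, lt_min he1 he2, max n1 n2, fun n hn Q g γ b hQ => ?_⟩
  have hnR : (0 : ℝ) ≤ n := Nat.cast_nonneg n
  have hx1 : Real.exp (-e1 * n) ≤ Real.exp (-(min e1 e2) * n) :=
    Real.exp_le_exp.2 (mul_le_mul_of_nonneg_right (neg_le_neg (min_le_left _ _)) hnR)
  have hx2 : Real.exp (-e2 * n) ≤ Real.exp (-(min e1 e2) * n) :=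
    Real.exp_le_exp.2 (mul_le_mul_of_nonneg_right (neg_le_neg (min_le_right _ _)) hnR)
  obtain ⟨a1, a2, a3⟩ := h1' n ((le_max_left _ _).trans hn) Q g γ b hQ
  obtain ⟨b1, b2⟩ := h2' n ((le_max_right _ _).trans hn) Q g γ b hQ 0 (by simp)
  rw [hQ.m12] at b1 b2
  have hQ0 : Q (((0 : ℝ) : ℂ) * Complex.I) = 1 := by
    rw [Complex.ofReal_zero, zero_mul]
    exact hQ.mz
  rw [hQ0] at b1
  have c1' : η + Δ ≤ b → |(vS Q T n ε η c 0).re - 1| ≤ Real.exp (-e2 * n) := by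
    intro h
    have h3 := (Complex.abs_re_le_norm _).trans (b1 h)
    rwa [Complex.sub_re, Complex.one_re] at h3
  have c2' : b ≤ η - Δ → |(vS Q T n ε η c 0).re| ≤ Real.exp (-e2 * n) := by
    intro h
    exact (Complex.abs_re_le_norm _).trans (b2 h)
  refine ⟨?_, ?_, a2, fun h => ?_, fun h => ?_⟩
  · rcases le_or_gt (η - Δ) b with h | h
    · have := a3 (by linarith)
      linarith
    · have := (abs_le.1 (c2' h.le)).1
      linarith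
  · rcases le_or_gt b (η + Δ) with h | h
    · have := a1 (by linarith)
      linarith
    · have := (abs_le.1 (c1' h.le)).2
      linarith
  · have := (abs_le.1 (c1' h)).1
    linarith
  · have := (abs_le.1 (c2' h)).2
    linarith

/-- the two parts of a test function -/
theorem parts4 (hpg : S4_pg) (hqb : S4_qb) (hl : S4_left) (htr : S4_trans) (ho : S4_out)
    (ht : S4_thr) (m ε η : ℝ) (hm : 0 < m) (hε : 0 < ε) (hε1 : ε ≤ 1) (hη0 : 0 ≤ η)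
    (hη1 : η ≤ 1) :
    ∃ Δ₀ : ℝ, 0 < Δ₀ ∧ ∀ Δ : ℝ, 0 < Δ → Δ ≤ Δ₀ → ∃ e : ℝ, 0 < e ∧ ∃ n₀ : ℕ,
      ∀ n : ℕ, n₀ ≤ n → ∀ σ : ℝ, Qz4 m n σ → ∀ w : ℕ, w ≤ n → ∃ A B : ℝ,
        |(v4 m n w σ ε η 0).re - (A + σ * B)| ≤ Real.exp (-e * n) ∧
        (-Real.exp (-e * n) ≤ A ∧ A ≤ 1 + Real.exp (-e * n)) ∧
        (-Real.exp (-e * n) ≤ B ∧ B ≤ 1 + Real.exp (-e * n)) ∧
        (1 - 2 * ((w : ℝ) / n) - THR 0 m ≤ η → A ≤ 5 / 6) ∧
        (η + Δ ≤ 1 - 2 * ((w : ℝ) / n) - THR 0 m → 1 - Real.exp (-e * n) ≤ A) ∧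
        (1 - 2 * ((w : ℝ) / n) - THR 0 m ≤ η - Δ → A ≤ Real.exp (-e * n)) ∧
        (-η + Δ ≤ -(1 - 2 * ((w : ℝ) / n)) - THR 0 m → 1 - Real.exp (-e * n) ≤ B) ∧
        (-(1 - 2 * ((w : ℝ) / n)) - THR 0 m ≤ -η - Δ → B ≤ Real.exp (-e * n)) := by
  obtain ⟨T, hT0, hTm⟩ : ∃ T : ℝ, 0 < T ∧ Real.sinh (2 * T) ^ 2 = m := by
    refine ⟨Real.arsinh (√m) / 2, ?_, ?_⟩
    · have : 0 < Real.arsinh (√m) := Real.arsinh_pos_iff.mpr (Real.sqrt_pos.mpr hm)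
      linarith
    · rw [show 2 * (Real.arsinh (√m) / 2) = Real.arsinh (√m) by ring, Real.sinh_arsinh,
        Real.sq_sqrt hm.le]
  have hηa : |η| ≤ 1 := by rw [abs_of_nonneg hη0]; exact hη1
  have hηn : |-η| ≤ 1 := by rw [abs_neg]; exact hηa
  obtain ⟨T', hT1, hT'0, hT'T, c1, hc1, h1⟩ :=
    ho m T hm hT0 hTm ε (T / 4) hε (by linarith) (by linarith)
  have hsm : Real.sinh (2 * T') ^ 2 < m := by
    rw [← hTm]
    have h2 : 0 < Real.sinh (2 * T') := Real.sinh_pos_iff.mpr (by linarith)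
    have h3 : Real.sinh (2 * T') < Real.sinh (2 * T) := Real.sinh_lt_sinh.mpr (by linarith)
    nlinarith
  obtain ⟨C₀, κ₀, hC₀, hκ₀, hκ₀', hP⟩ := hpg m T' hm hT'0 hsm
  obtain ⟨C, κ, hC, hκ, hκ', hQ⟩ := hqb (PJ m) (JJ m) T' C₀ κ₀ hT'0 hC₀ hκ₀ hκ₀' hP
  obtain ⟨Δ₁, hΔ₁, h2⟩ := seg4 hl htr T' C κ hT'0 hC hκ hκ' ε η hε hε1 hηa
  obtain ⟨Δ₂, hΔ₂, h3⟩ := seg4 hl htr T' C κ hT'0 hC hκ hκ' ε (-η) hε hε1 hηn
  refine ⟨min Δ₁ Δ₂, lt_min hΔ₁ hΔ₂, fun Δ hΔ hΔΔ => ?_⟩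
  obtain ⟨c2, hc2, h2a⟩ := h2 Δ hΔ (hΔΔ.trans (min_le_left _ _))
  obtain ⟨c3, hc3, h3a⟩ := h3 Δ hΔ (hΔΔ.trans (min_le_right _ _))
  obtain ⟨c, hc, hcc1, hcc2, hcc3, -⟩ := VT4f.ex4 c1 c2 c3 c3 hc1 hc2 hc3 hc3
  obtain ⟨e1, he1, n1, h1'⟩ := h1 c hc hcc1
  obtain ⟨e2, he2, n2, h2'⟩ := h2a c hc hcc2
  obtain ⟨e3, he3, n3, h3'⟩ := h3a c hc hcc3
  obtain ⟨e, he, k1, k2, k3, -⟩ := VT4f.ex4 e1 e2 e3 e3 he1 he2 he3 he3
  refine ⟨e, he, n1 + n2 + n3 + 1, fun n hn σ hσ w hw => ?_⟩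
  have hn0 : 0 < n := by omega
  have hnR : (0 : ℝ) ≤ n := Nat.cast_nonneg n
  have herr : ∀ e' : ℝ, e ≤ e' → Real.exp (-e' * n) ≤ Real.exp (-e * n) := by
    intro e' he'
    exact Real.exp_le_exp.mpr (by nlinarith)
  -- the exponent
  have hb : ∀ w : ℕ, w ≤ n → bb n w + (JJ m 0).re = 1 - 2 * ((w : ℝ) / n) - THR 0 m := by
    intro w hw
    have h5 := (hQ n w hn0 hw).m12
    have h6 := ht.2.1 ((w : ℝ) / n) m 0 hm (by simpa using hm)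
    beta_reduce at h5
    rw [← h5, h6]
    simp only [mul_zero, Real.sinh_zero, Real.cosh_zero, div_one]
    rw [show (0 : ℝ) ^ 2 = 0 by norm_num]
  have hb' : bb n (n - w) + (JJ m 0).re = -(1 - 2 * ((w : ℝ) / n)) - THR 0 m := by
    rw [hb (n - w) (Nat.sub_le _ _)]
    have hn' : (n : ℝ) ≠ 0 := by exact_mod_cast hn0.ne'
    rw [Nat.cast_sub hw]
    field_simp
    ring
  obtain ⟨A, hA⟩ : ∃ A, A = vS (QJ m n w) T' n ε η c 0 := ⟨_, rfl⟩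
  obtain ⟨B, hB⟩ : ∃ B, B = vS (QJ m n (n - w)) T' n ε (-η) c 0 := ⟨_, rfl⟩
  obtain ⟨a1, a2, a3, a4, a5⟩ := h2' n (by omega) (QJ m n w) _ _ _ (hQ n w hn0 hw)
  obtain ⟨b1, b2, -, b4, b5⟩ := h3' n (by omega) (QJ m n (n - w)) _ _ _
    (hQ n (n - w) hn0 (Nat.sub_le n w))
  rw [← hA] at a1 a2 a3 a4 a5
  rw [← hB] at b1 b2 b4 b5
  rw [hb w hw] at a3 a4 a5
  rw [hb'] at b4 b5
  have x1 := herr e1 k1
  have x2 := herr e2 k2
  have x3 := herr e3 k3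
  have hout := h1' n (by omega) σ hσ w hw η 0 hηa (by rw [abs_zero]; linarith)
  rw [neg_zero, ← hA, ← hB] at hout
  refine ⟨A.re, B.re, ?_, ⟨by linarith, by linarith⟩, ⟨by linarith, by linarith⟩, a3,
    fun h => ?_, fun h => ?_, fun h => ?_, fun h => ?_⟩
  · have h5 := (Complex.abs_re_le_norm _).trans (hout.trans x1)
    have h6 : (v4 m n w σ ε η 0 - (A + (σ : ℂ) * B)).re =
        (v4 m n w σ ε η 0).re - (A.re + σ * B.re) := by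
      simp
    rwa [h6] at h5
  · linarith [a4 h]
  · linarith [a5 h]
  · linarith [b4 h]
  · linarith [b5 h]

/-- the mean of two test functions -/
noncomputable def vm (m : ℝ) (q n : ℕ) (ε η : ℝ) (w : ℕ) : ℝ :=
  ((v4 m n w (-1) ε η 0).re + (v4 m (n + q) w 1 ε (2 * η) 0).re) / 2

/-- the values of the mean -/
theorem mix4 (hpg : S4_pg) (hqb : S4_qb) (hl : S4_left) (htr : S4_trans) (ho : S4_out)
    (ht : S4_thr) (hw4 : S4_w) (m ε η : ℝ) (q : ℕ) (hm : 0 < m) (hε : 0 < ε) (hε1 : ε ≤ 1)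
    (hη0 : 0 < η) (hη1 : η ≤ 1 / 2) (hηT : η ≤ THR 0 m) :
    ∃ Δ₀ : ℝ, 0 < Δ₀ ∧ ∀ Δ : ℝ, 0 < Δ → Δ ≤ Δ₀ → ∃ e : ℝ, 0 < e ∧ ∃ n₀ : ℕ,
      ∀ n : ℕ, n₀ ≤ n → Qz4 m n (-1) → Qz4 m (n + q) 1 → ∀ w : ℕ, w ≤ n →
        -Real.exp (-e * n) ≤ vm m q n ε η w ∧
        vm m q n ε η w ≤ 1 + Real.exp (-e * n) ∧
        (1 - 2 * ((w : ℝ) / n) - THR 0 m ≤ η → vm m q n ε η w ≤ 23 / 24) ∧
        (2 * η + Δ ≤ 1 - 2 * ((w : ℝ) / n) - THR 0 m →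
          |1 - vm m q n ε η w| ≤ Real.exp (-e * n)) := by
  have hT := THR_pos hw4 hm
  obtain ⟨Δ₁, hΔ₁, h1⟩ := parts4 hpg hqb hl htr ho ht m ε η hm hε hε1 hη0.le (by linarith)
  obtain ⟨Δ₂, hΔ₂, h2⟩ := parts4 hpg hqb hl htr ho ht m ε (2 * η) hm hε hε1 (by linarith)
    (by linarith)
  refine ⟨min (min Δ₁ Δ₂) (η / 4), lt_min (lt_min hΔ₁ hΔ₂) (by linarith), fun Δ hΔ hΔΔ => ?_⟩
  have hd1 : Δ ≤ Δ₁ := hΔΔ.trans ((min_le_left _ _).trans (min_le_left _ _))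
  have hd2 : Δ ≤ Δ₂ := hΔΔ.trans ((min_le_left _ _).trans (min_le_right _ _))
  have hd3 : Δ ≤ η / 4 := hΔΔ.trans (min_le_right _ _)
  obtain ⟨e1, he1, n1, h1'⟩ := h1 Δ hΔ hd1
  obtain ⟨e2, he2, n2, h2'⟩ := h2 Δ hΔ hd2
  obtain ⟨e, he, k1, k2, -, -⟩ := VT4f.ex4 e1 e2 e2 e2 he1 he2 he2 he2
  obtain ⟨N, hN⟩ := exists_nat_ge (600 / e)
  obtain ⟨N2, hN2⟩ := exists_nat_ge (2 * q / Δ)
  refine ⟨e / 2, by linarith, n1 + n2 + N + N2 + 1, fun n hn hQ1 hQ2 w hw => ?_⟩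
  have hn0 : 0 < n := by omega
  have hnR : (0 : ℝ) < n := by exact_mod_cast hn0
  have hqR : (0 : ℝ) ≤ q := Nat.cast_nonneg q
  have hwR : (0 : ℝ) ≤ w := Nat.cast_nonneg w
  have hwn : (w : ℝ) ≤ n := by exact_mod_cast hw
  obtain ⟨A, B, a0, a1, a2, a3, a4, a5, a6, a7⟩ := h1' n (by omega) (-1) hQ1 w hw
  obtain ⟨A', B', b0, b1, b2, b3, b4, b5, b6, b7⟩ :=
    h2' (n + q) (by omega) 1 hQ2 w (by omega)
  -- the errors
  have hN' : 600 ≤ e * n := by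
    have h5 : (N : ℝ) ≤ n := by exact_mod_cast (by omega : N ≤ n)
    have h6 : 600 / e ≤ n := hN.trans h5
    rw [div_le_iff₀ he] at h6
    linarith
  obtain ⟨y, hy⟩ : ∃ y, y = Real.exp (-(e / 2) * n) := ⟨_, rfl⟩
  have hy0 : 0 < y := by rw [hy]; exact Real.exp_pos _
  have hy1 : y ≤ 1 / 300 := by
    rw [hy, neg_mul, Real.exp_neg, ← one_div]
    refine one_div_le_one_div_of_le (by norm_num) ?_
    have := Real.add_one_le_exp (e / 2 * n)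
    linarith
  have hx : Real.exp (-e * n) = y ^ 2 := by
    rw [hy, ← Real.exp_nat_mul]
    congr 1
    push_cast
    ring
  have hyy : y ^ 2 ≤ 1 / 300 * y := by
    rw [pow_two]
    exact mul_le_mul_of_nonneg_right hy1 hy0.le
  have x1 : Real.exp (-e1 * n) ≤ y ^ 2 := by
    rw [← hx]
    exact Real.exp_le_exp.mpr (by nlinarith)
  have x2 : Real.exp (-e2 * ((n + q : ℕ) : ℝ)) ≤ y ^ 2 := by
    rw [← hx]
    refine Real.exp_le_exp.mpr ?_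
    push_cast
    nlinarith [mul_nonneg he2.le hqR, mul_le_mul_of_nonneg_right k2 hnR.le]
  rw [← hy]
  -- the positions
  obtain ⟨b, hb⟩ : ∃ b : ℝ, b = 1 - 2 * ((w : ℝ) / n) - THR 0 m := ⟨_, rfl⟩
  obtain ⟨b', hb'⟩ : ∃ b' : ℝ, b' = 1 - 2 * ((w : ℝ) / ((n + q : ℕ) : ℝ)) - THR 0 m := ⟨_, rfl⟩
  have hm1 : -(1 - 2 * ((w : ℝ) / n)) - THR 0 m = -b - 2 * THR 0 m := by rw [hb]; ring
  have hm2 : -(1 - 2 * ((w : ℝ) / ((n + q : ℕ) : ℝ))) - THR 0 m = -b' - 2 * THR 0 m := by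
    rw [hb']; ring
  rw [← hb] at a3 a4 a5
  rw [← hb'] at b3 b4 b5
  rw [hm1] at a6 a7
  rw [hm2] at b6 b7
  rw [← hb]
  have hnq : (0 : ℝ) < ((n + q : ℕ) : ℝ) := by push_cast; linarith
  have hbb1 : b ≤ b' := by
    rw [hb, hb']
    have : (w : ℝ) / ((n + q : ℕ) : ℝ) ≤ w / n :=
      div_le_div_of_nonneg_left hwR hnR (by push_cast; linarith)
    linarith
  have hbb2 : b' ≤ b + Δ := by
    have h5 : (N2 : ℝ) ≤ n := by exact_mod_cast (by omega : N2 ≤ n)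
    have h6 : 2 * q / Δ ≤ n := hN2.trans h5
    rw [div_le_iff₀ hΔ] at h6
    have h7 : (w : ℝ) / n ≤ w / ((n + q : ℕ) : ℝ) + q / n := by
      rw [div_add_div _ _ hnq.ne' hnR.ne', div_le_div_iff₀ hnR (mul_pos hnq hnR)]
      push_cast
      have h8 : 0 ≤ (q : ℝ) * n * (n - w) := mul_nonneg (mul_nonneg hqR hnR.le) (by linarith)
      have h9 : 0 ≤ (q : ℝ) * q * n := by positivity
      nlinarith
    have h8 : (q : ℝ) / n ≤ Δ / 2 := by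
      rw [div_le_iff₀ hnR]
      linarith
    rw [hb, hb']
    linarith
  have hv : |vm m q n ε η w - (A + A' + (B' - B)) / 2| ≤ y ^ 2 := by
    unfold vm
    have h3 := abs_le.1 (a0.trans x1)
    have h4 := abs_le.1 (b0.trans x2)
    rw [abs_le]
    constructor <;> linarith [h3.1, h3.2, h4.1, h4.2]
  obtain ⟨v, hvv⟩ : ∃ v : ℝ, v = vm m q n ε η w := ⟨_, rfl⟩
  rw [← hvv] at hv ⊢
  obtain ⟨v1, v2⟩ := abs_le.1 hv
  have hy2 : 0 ≤ y ^ 2 := sq_nonneg y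
  -- the difference at the right end
  have hdl : -(2 * y ^ 2) ≤ B' - B := by
    rcases le_or_gt (-b - 2 * THR 0 m) (-η - Δ) with h | h
    · have := a7 h
      linarith [b2.1]
    · have := b6 (by linarith)
      linarith [a2.2]
  rcases le_or_gt (-b' - 2 * THR 0 m) (-(2 * η) - Δ) with h | h
  · -- the part on the right is small
    have h3 := b7 h
    have h4 : B' - B ≤ 2 * y ^ 2 := by linarith [a2.1]
    refine ⟨by linarith [a1.1, b1.1], by linarith [a1.2, b1.2], fun h5 => ?_, fun h5 => ?_⟩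
    · have := a3 h5
      linarith [b1.2]
    · have h6 := a4 (by linarith)
      have h7 := b4 (by linarith)
      rw [abs_le]
      constructor <;> linarith [a1.2, b1.2]
  · -- the parts on the left are small
    have h3 := a5 (by linarith)
    have h4 := b5 (by linarith)
    have h5 : B' - B ≤ 1 + 2 * y ^ 2 := by linarith [a2.1, b2.2]
    refine ⟨by linarith [a1.1, b1.1], by linarith, fun _ => by linarith, fun h6 => ?_⟩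
    exfalso
    linarith

end Pool.Agent.Q102.KB
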