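import Mathlib
import Pool.Agent.Y570.KP.Star
import Pool.Agent.Q102.KB.Tr3
import Pool.Agent.Q102.KB.Tr4

/-!
Q102/KB (helper102, MP_0430e4_lc): the inequality dual to kernels which exceed one only by an
exponentially small amount.
-/

set_option autoImplicit false

open MeasureTheory Filter Topology

namespace Pool.Agent.Q102.KB

open Pool.Agent.TH41.BL Pool.Agent.Y570.KP

open Classical in
/-- the comparison of the sums -/
lemma compareK (m : ℕ) (C v f : ℕ → ℝ) (Pn Pa : ℕ → Prop) (x : ℝ) (hC : ∀ w, 0 ≤ C w)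
    (hx : 0 ≤ x)
    (h1 : ∀ w ∈ Finset.range m, ¬ Pa w → |1 - v w| ≤ x)
    (h2 : ∀ w ∈ Finset.range m, v w ≤ 1 + x)
    (h3 : ∀ w ∈ Finset.range m, ¬ Pn w → v w ≤ 23 / 24)
    (h4 : ∀ w ∈ Finset.range m, -x ≤ v w)
    (h5 : ∀ w ∈ Finset.range m, ¬ Pn w → Pa w) :
    ∑ w ∈ Finset.range m, C w * (1 - v w) * f w ≤
      x * ∑ w ∈ (Finset.range m).filter Pn, C w * |f w| -
        1 / 24 * ∑ w ∈ (Finset.range m).filter (fun w => ¬ Pn w), C w * max (-f w) 0 +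
        (1 + x) * ∑ w ∈ (Finset.range m).filter Pa, C w * max (f w) 0 := by
  rw [Finset.sum_filter, Finset.sum_filter, Finset.sum_filter, Finset.mul_sum, Finset.mul_sum,
    Finset.mul_sum, ← Finset.sum_sub_distrib, ← Finset.sum_add_distrib]
  refine Finset.sum_le_sum fun w hw => ?_
  have hCw := hC w
  have hab := abs_nonneg (f w)
  have hCf : 0 ≤ C w * |f w| := mul_nonneg hCw hab
  have hv4 := h4 w hw
  have hv2 := h2 w hw
  by_cases hn : Pn w
  · rw [if_pos hn, if_neg (not_not.2 hn)]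
    by_cases ha : Pa w
    · rw [if_pos ha]
      rcases le_total (f w) 0 with hf | hf
      · rw [abs_of_nonpos hf, max_eq_right hf]
        have e1 : 0 ≤ (1 - v w + x) * (C w * (-f w)) :=
          mul_nonneg (by linarith) (mul_nonneg hCw (by linarith))
        nlinarith
      · rw [abs_of_nonneg hf, max_eq_left hf]
        have e1 : 0 ≤ (x + v w) * (C w * f w) :=
          mul_nonneg (by linarith) (mul_nonneg hCw hf)
        have e2 : 0 ≤ C w * f w := mul_nonneg hCw hf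
        have e3 : 0 ≤ x * (C w * f w) := mul_nonneg hx e2
        nlinarith
    · rw [if_neg ha]
      have hv := h1 w hw ha
      have e1 : C w * (1 - v w) * f w ≤ |C w * (1 - v w) * f w| := le_abs_self _
      rw [abs_mul, abs_mul, abs_of_nonneg hCw] at e1
      have e2 : |1 - v w| * (C w * |f w|) ≤ x * (C w * |f w|) :=
        mul_le_mul_of_nonneg_right hv hCf
      nlinarith
  · rw [if_neg hn, if_pos hn, if_pos (h5 w hw hn)]
    have hv := h3 w hw hn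
    rcases le_total (f w) 0 with hf | hf
    · rw [max_eq_left (by linarith : 0 ≤ -f w), max_eq_right hf]
      have e1 : 0 ≤ (1 - v w - 1 / 24) * (C w * (-f w)) :=
        mul_nonneg (by linarith) (mul_nonneg hCw (by linarith))
      nlinarith
    · rw [max_eq_right (by linarith : -f w ≤ 0), max_eq_left hf]
      have e1 : 0 ≤ (x + v w) * (C w * f w) :=
        mul_nonneg (by linarith) (mul_nonneg hCw hf)
      nlinarith

/-- the finishing arithmetic -/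
lemma finishK (hk : S_kra) (n d : ℕ) (l : ℕ → ℝ) (f v : ℕ → ℝ)
    (hf : f = fun w => ∑ i ∈ Finset.range (n + 1), l i * (kr n i w : ℝ))
    (mu ε' E7 P K : ℝ) (hn : 2 ≤ n * ε') (hE7 : E7 = Real.exp (n * (mu + ε' / 4)))
    (hP : P = ∑ w ∈ (Finset.range (n + 1)).filter (fun w => d ≤ w), (n.choose w : ℝ) * max (f w) 0)
    (hdual2 : |∑ w ∈ Finset.range (n + 1), (n.choose w : ℝ) * v w * f w| ≤ E7 * NN n f)
    (hS : ∑ w ∈ Finset.range (n + 1), (n.choose w : ℝ) * (1 - v w) * f w ≤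
      E7 * NN n f + K * P) :
    2 ^ n * l 0 ≤
    K * ∑ w ∈ (Finset.range (n + 1)).filter (fun w => d ≤ w),
      (n.choose w : ℝ) * max (∑ i ∈ Finset.range (n + 1), l i * (kr n i w : ℝ)) 0 +
    Real.exp (n * (mu + 1 / 2 * Real.log 2 + ε')) *
      ∑ j ∈ Finset.range (n + 1), (n.choose j : ℝ) * |l j| := by
  obtain ⟨-, hk2, hk3, -, -⟩ := hk
  have htr : ∀ j, j ≤ n → tr n f j = √2 ^ n * l j := by
    intro j hj
    rw [hf]
    exact hk2 n l j hj
  have hs2 : (0 : ℝ) < √2 ^ n := by positivity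
  have hs22 : (√2 : ℝ) ^ n * √2 ^ n = 2 ^ n := by
    rw [← mul_pow, Real.mul_self_sqrt (by norm_num)]
  have hs2e : (√2 : ℝ) ^ n = Real.exp (n * (1 / 2 * Real.log 2)) := by
    have e1 : (√2 : ℝ) = Real.exp (1 / 2 * Real.log 2) := by
      rw [Real.sqrt_eq_rpow, Real.rpow_def_of_pos (by norm_num)]
      congr 1
      ring
    rw [e1, ← Real.exp_nat_mul]
  have hsum : ∑ w ∈ Finset.range (n + 1), (n.choose w : ℝ) * f w = 2 ^ n * l 0 := by
    have e1 := htr 0 (Nat.zero_le n)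
    unfold tr at e1
    have e2 : ∑ w ∈ Finset.range (n + 1), f w * (kr n w 0 : ℝ) = √2 ^ n * (√2 ^ n * l 0) := by
      rw [← e1, ← mul_assoc, mul_inv_cancel₀ hs2.ne', one_mul]
    rw [← mul_assoc, hs22] at e2
    rw [← e2]
    refine Finset.sum_congr rfl fun w _ => ?_
    rw [hk3]
    push_cast
    ring
  obtain ⟨Sg, hSg⟩ : ∃ Sg : ℝ, Sg = ∑ j ∈ Finset.range (n + 1), (n.choose j : ℝ) * |l j| :=
    ⟨_, rfl⟩
  have hSg0 : 0 ≤ Sg := by
    rw [hSg]
    exact Finset.sum_nonneg fun j _ => mul_nonneg (Nat.cast_nonneg _) (abs_nonneg _)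
  have hNN : NN n f = √2 ^ n * Sg := by
    unfold NN
    rw [hSg, Finset.mul_sum]
    refine Finset.sum_congr rfl fun j hj => ?_
    have hj' : j ≤ n := by
      have := Finset.mem_range.1 hj
      omega
    rw [htr j hj', abs_mul, abs_of_pos hs2]
    ring
  have hsplit : ∑ w ∈ Finset.range (n + 1), (n.choose w : ℝ) * (1 - v w) * f w =
      2 ^ n * l 0 - ∑ w ∈ Finset.range (n + 1), (n.choose w : ℝ) * v w * f w := by
    rw [← hsum, ← Finset.sum_sub_distrib]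
    refine Finset.sum_congr rfl fun w _ => ?_
    ring
  have hfin : 2 ^ n * l 0 ≤ 2 * (E7 * NN n f) + K * P := by
    have e1 := le_abs_self (∑ w ∈ Finset.range (n + 1), (n.choose w : ℝ) * v w * f w)
    rw [hsplit] at hS
    linarith
  rw [← hSg]
  have hPe : ∑ w ∈ (Finset.range (n + 1)).filter (fun w => d ≤ w),
      (n.choose w : ℝ) * max (∑ i ∈ Finset.range (n + 1), l i * (kr n i w : ℝ)) 0 = P := by
    rw [hP, hf]
  rw [hPe]
  refine hfin.trans ?_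
  have g2 : 2 * (E7 * NN n f) ≤ Real.exp (n * (mu + 1 / 2 * Real.log 2 + ε')) * Sg := by
    rw [hNN]
    have e1 : Real.exp (n * (mu + 1 / 2 * Real.log 2 + ε')) =
        Real.exp (n * (3 / 4 * ε')) * (E7 * √2 ^ n) := by
      rw [hE7, hs2e, ← Real.exp_add, ← Real.exp_add]
      congr 1
      ring
    rw [e1]
    have e2 : 2 ≤ Real.exp (n * (3 / 4 * ε')) := by
      have := Real.add_one_le_exp (n * (3 / 4 * ε'))
      linarith
    have e3 : 0 ≤ E7 * √2 ^ n * Sg := by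
      rw [hE7]
      positivity
    calc 2 * (E7 * (√2 ^ n * Sg)) = 2 * (E7 * √2 ^ n * Sg) := by ring
      _ ≤ Real.exp (n * (3 / 4 * ε')) * (E7 * √2 ^ n * Sg) :=
          mul_le_mul_of_nonneg_right e2 e3
      _ = Real.exp (n * (3 / 4 * ε')) * (E7 * √2 ^ n) * Sg := by ring
  linarith

open Classical in
/-- the inequality from a test function -/
theorem star_core (hk : S_kra) (n d : ℕ) (v : ℕ → ℝ) (mu ε' x Y : ℝ) (Pn Pa : ℕ → Prop)
    (hn : 2 ≤ n * ε') (hx0 : 0 ≤ x) (hx1 : x ≤ 1) (hY : 0 ≤ Y) (hxY : x * Y ≤ 1 / 24)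
    (h1 : ∀ w ∈ Finset.range (n + 1), ¬ Pa w → |1 - v w| ≤ x)
    (h2 : ∀ w ∈ Finset.range (n + 1), v w ≤ 1 + x)
    (h3 : ∀ w ∈ Finset.range (n + 1), ¬ Pn w → v w ≤ 23 / 24)
    (h4 : ∀ w ∈ Finset.range (n + 1), -x ≤ v w)
    (h5 : ∀ w ∈ Finset.range (n + 1), ¬ Pn w → Pa w)
    (h6 : ∀ w ∈ Finset.range (n + 1), Pa w → d ≤ w)
    (hdual : ∀ f : ℕ → ℝ, |∑ w ∈ Finset.range (n + 1), (n.choose w : ℝ) * v w * f w| ≤
      Real.exp (n * (mu + ε' / 4)) * NN n f)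
    (hnear : ∀ f : ℕ → ℝ, ∑ w ∈ (Finset.range (n + 1)).filter Pn, (n.choose w : ℝ) * |f w| ≤
      Y * ∑ w ∈ (Finset.range (n + 1)).filter (fun w => ¬ Pn w), (n.choose w : ℝ) * |f w| +
      Real.exp (n * (mu + ε' / 4)) * NN n f) :
    StarAt n d (1 + (x + x * Y)) (Real.exp (n * (mu + 1 / 2 * Real.log 2 + ε'))) := by
  intro l
  obtain ⟨f, hf⟩ : ∃ f : ℕ → ℝ, f = fun w => ∑ i ∈ Finset.range (n + 1), l i * (kr n i w : ℝ) :=
    ⟨_, rfl⟩
  obtain ⟨E7, hE7⟩ : ∃ E7 : ℝ, E7 = Real.exp (n * (mu + ε' / 4)) := ⟨_, rfl⟩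
  have hE70 : 0 < E7 := by
    rw [hE7]
    exact Real.exp_pos _
  have hNN0 : 0 ≤ NN n f := by
    unfold NN
    exact Finset.sum_nonneg fun j _ => mul_nonneg (Nat.cast_nonneg _) (abs_nonneg _)
  obtain ⟨P, hP⟩ : ∃ P : ℝ, P = ∑ w ∈ (Finset.range (n + 1)).filter (fun w => d ≤ w),
    (n.choose w : ℝ) * max (f w) 0 := ⟨_, rfl⟩
  have hC : ∀ w, (0 : ℝ) ≤ (n.choose w : ℝ) := fun w => Nat.cast_nonneg _
  have hcmp := compareK (n + 1) (fun w => (n.choose w : ℝ)) v f Pn Pa x hC hx0 h1 h2 h3 h4 h5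
  beta_reduce at hcmp
  have hd := hdual f
  have hnr := hnear f
  rw [← hE7] at hd hnr
  refine finishK hk n d l f v hf mu ε' E7 P _ hn hE7 hP hd (hcmp.trans ?_)
  -- the sums
  obtain ⟨Ne, hNe⟩ : ∃ Ne : ℝ, Ne = ∑ w ∈ (Finset.range (n + 1)).filter Pn,
    (n.choose w : ℝ) * |f w| := ⟨_, rfl⟩
  obtain ⟨Fm, hFm⟩ : ∃ Fm : ℝ, Fm = ∑ w ∈ (Finset.range (n + 1)).filter (fun w => ¬ Pn w),
    (n.choose w : ℝ) * max (-f w) 0 := ⟨_, rfl⟩
  obtain ⟨Fp, hFp⟩ : ∃ Fp : ℝ, Fp = ∑ w ∈ (Finset.range (n + 1)).filter (fun w => ¬ Pn w),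
    (n.choose w : ℝ) * max (f w) 0 := ⟨_, rfl⟩
  obtain ⟨Pp, hPp⟩ : ∃ Pp : ℝ, Pp = ∑ w ∈ (Finset.range (n + 1)).filter Pa,
    (n.choose w : ℝ) * max (f w) 0 := ⟨_, rfl⟩
  have hFa : ∑ w ∈ (Finset.range (n + 1)).filter (fun w => ¬ Pn w), (n.choose w : ℝ) * |f w| =
      Fp + Fm := by
    rw [hFp, hFm, ← Finset.sum_add_distrib]
    refine Finset.sum_congr rfl fun w _ => ?_
    rw [← mul_add]
    congr 1
    rcases le_total (f w) 0 with h | h
    · rw [abs_of_nonpos h, max_eq_right h, max_eq_left (by linarith), zero_add]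
    · rw [abs_of_nonneg h, max_eq_left h, max_eq_right (by linarith), add_zero]
  rw [← hNe, hFa] at hnr
  rw [← hNe, ← hFm, ← hPp]
  have hPpP : Pp ≤ P := by
    rw [hPp, hP]
    refine Finset.sum_le_sum_of_subset_of_nonneg ?_ ?_
    · intro w hw
      rw [Finset.mem_filter] at hw ⊢
      exact ⟨hw.1, h6 w hw.1 hw.2⟩
    · intro w _ _
      exact mul_nonneg (hC w) (le_max_right _ _)
  have hFpP : Fp ≤ P := by
    rw [hFp, hP]
    refine Finset.sum_le_sum_of_subset_of_nonneg ?_ ?_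
    · intro w hw
      rw [Finset.mem_filter] at hw ⊢
      exact ⟨hw.1, h6 w hw.1 (h5 w hw.1 hw.2)⟩
    · intro w _ _
      exact mul_nonneg (hC w) (le_max_right _ _)
  have hFm0 : 0 ≤ Fm := by
    rw [hFm]
    exact Finset.sum_nonneg fun w _ => mul_nonneg (hC w) (le_max_right _ _)
  have hE := mul_nonneg hE70.le hNN0
  have e1 : x * Ne ≤ x * (Y * (Fp + Fm) + E7 * NN n f) := mul_le_mul_of_nonneg_left hnr hx0
  have e2 : x * Y * Fm ≤ 1 / 24 * Fm := mul_le_mul_of_nonneg_right hxY hFm0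
  have e3 : x * (E7 * NN n f) ≤ 1 * (E7 * NN n f) := mul_le_mul_of_nonneg_right hx1 hE
  have e4 : x * Y * Fp ≤ x * Y * P := mul_le_mul_of_nonneg_left hFpP (mul_nonneg hx0 hY)
  have e5 : (1 + x) * Pp ≤ (1 + x) * P := mul_le_mul_of_nonneg_left hPpP (by linarith)
  linarith

lemma star_mono {n d : ℕ} {K K' L : ℝ} (hK : K ≤ K') (h : StarAt n d K L) : StarAt n d K' L := by
  intro l
  refine (h l).trans (add_le_add (mul_le_mul_of_nonneg_right hK ?_) le_rfl)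
  exact Finset.sum_nonneg fun w _ => mul_nonneg (Nat.cast_nonneg _) (le_max_right _ _)

/-- the exponential factors -/
lemma factors {e : ℝ} (he : 0 < e) : ∃ n₀ : ℕ, ∀ n : ℕ, n₀ ≤ n →
    Real.exp (-e * n) ≤ 1 ∧ Real.exp (-e * n) * Real.exp (e / 2 * n) ≤ 1 / 24 ∧
    1 + (Real.exp (-e * n) + Real.exp (-e * n) * Real.exp (e / 2 * n)) ≤
      1 + Real.exp (-(e / 4) * n) := by
  obtain ⟨n₀, hn₀⟩ := exists_nat_ge (100 / e)
  refine ⟨n₀, fun n hn => ?_⟩
  have hn' : (n₀ : ℝ) ≤ n := by exact_mod_cast hn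
  have h1 := hn₀.trans hn'
  rw [div_le_iff₀ he] at h1
  obtain ⟨y, hy⟩ : ∃ y, y = Real.exp (-(e / 4) * n) := ⟨_, rfl⟩
  have hy0 : 0 < y := by rw [hy]; exact Real.exp_pos _
  have hy1 : y ≤ 1 / 25 := by
    rw [hy, neg_mul, Real.exp_neg, ← one_div]
    refine one_div_le_one_div_of_le (by norm_num) ?_
    have := Real.add_one_le_exp (e / 4 * n)
    linarith
  have e1 : Real.exp (-e * n) = y ^ 4 := by
    rw [hy, ← Real.exp_nat_mul]
    congr 1
    push_cast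
    ring
  have e2 : Real.exp (-e * n) * Real.exp (e / 2 * n) = y ^ 2 := by
    rw [hy, ← Real.exp_nat_mul, ← Real.exp_add]
    congr 1
    push_cast
    ring
  have h2 : y ^ 2 ≤ 1 / 25 * y := by
    rw [pow_two]
    exact mul_le_mul_of_nonneg_right hy1 hy0.le
  have h3 : y ^ 4 ≤ y ^ 2 := by
    have : y ^ 4 = y ^ 2 * y ^ 2 := by ring
    rw [this]
    nlinarith [sq_nonneg y]
  rw [← hy, e2, e1]
  refine ⟨?_, ?_, ?_⟩ <;> nlinarith

/-- the first branch -/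
theorem star3K (hk : S_kra) (hpb : S3_pb) (hp : S3_ph) (hl : S3_left) (ht : S3_trans)
    (hd : S3_dual) (hn : S3_near) (m δ ε' : ℝ) (hm : 0 < m) (hδ : δ < NR m 0) (hε' : 0 < ε') :
    ∃ e : ℝ, 0 < e ∧ ∃ n₀ : ℕ, ∀ n : ℕ, n₀ ≤ n → Qz m n → ∀ d : ℕ, (d : ℝ) ≤ δ * n →
      StarAt n d (1 + Real.exp (-e * n)) (Real.exp (n * (mu3 m + 1 / 2 * Real.log 2 + ε'))) := by
  have hPh0 : Ph m 0 = 0 := (hp m hm).2.1
  obtain ⟨γ, hγ⟩ : ∃ γ : ℝ, γ = NR m 0 - δ := ⟨_, rfl⟩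
  have hγ0 : 0 < γ := by rw [hγ]; linarith
  obtain ⟨ε, hε⟩ : ∃ ε : ℝ, ε = min (γ / 2) (1 / 4) := ⟨_, rfl⟩
  have hε0 : 0 < ε := by
    rw [hε]
    exact lt_min (by linarith) (by norm_num)
  have hε4 : ε ≤ 1 / 4 := by
    rw [hε]
    exact min_le_right _ _
  have hεγ : ε ≤ γ / 2 := by
    rw [hε]
    exact min_le_left _ _
  obtain ⟨D0, hD0, ct, hct0, hct⟩ := ht m ε hm hε0 (by linarith)
  obtain ⟨Δ, hΔ⟩ : ∃ Δ : ℝ, Δ = min D0 ε := ⟨_, rfl⟩
  have hΔ0 : 0 < Δ := by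
    rw [hΔ]
    exact lt_min hD0 hε0
  have hΔD : Δ ≤ D0 := by
    rw [hΔ]
    exact min_le_left _ _
  have hΔε : Δ ≤ ε := by
    rw [hΔ]
    exact min_le_right _ _
  obtain ⟨cl, hcl0, hcl⟩ := hl m ε Δ hm hε0 hΔ0
  obtain ⟨cr, hcr0, hcr⟩ := low3 hpb m ε hm hε0 (by linarith)
  obtain ⟨cd, hcd0, hcd⟩ := hd m ε (ε' / 4) hm hε0 (by linarith)
  obtain ⟨c, hc⟩ : ∃ c : ℝ, c = min (min ct cr) (min cl cd) := ⟨_, rfl⟩
  have hc0 : 0 < c := by
    rw [hc]
    exact lt_min (lt_min hct0 hcr0) (lt_min hcl0 hcd0)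
  obtain ⟨εt, hεt, n1, h1⟩ := hct c hc0
    (by rw [hc]; exact (min_le_left _ _).trans (min_le_left _ _))
  obtain ⟨εr, hεr, n7, h7⟩ := hcr c hc0
    (by rw [hc]; exact (min_le_left _ _).trans (min_le_right _ _))
  obtain ⟨εl, hεl, n2, h2⟩ := hcl c hc0
    (by rw [hc]; exact (min_le_right _ _).trans (min_le_left _ _))
  obtain ⟨n4, h4⟩ := hcd c hc0
    (by rw [hc]; exact (min_le_right _ _).trans (min_le_right _ _))
  obtain ⟨ε1, hε1, hε1t, hε1l, hε1r, -⟩ := VT4f.ex4 εt εl εr εr hεt hεl hεr hεr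
  obtain ⟨n3, h3⟩ := hn m ε (ε1 / 2) (ε' / 4) hm hε0 (by linarith) (by linarith)
  obtain ⟨n5, h5⟩ := factors hε1
  obtain ⟨n6, h6⟩ := exists_nat_ge (2 / ε')
  refine ⟨ε1 / 4, by linarith, n1 + n2 + n3 + n4 + n5 + n6 + n7 + 1, ?_⟩
  intro n hnn hQz d hdn
  have hn1 : (1 : ℝ) ≤ n := by
    have : 1 ≤ n := by omega
    exact_mod_cast this
  have hnpos : (0 : ℝ) < n := by linarith
  obtain ⟨v, hv⟩ : ∃ v : ℕ → ℝ, ∀ w, v w = (vN m n w ε c 0).re := ⟨_, fun _ => rfl⟩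
  have hwn : ∀ w ∈ Finset.range (n + 1), w ≤ n := fun w hw => by
    have := Finset.mem_range.1 hw
    omega
  have hexpt : Real.exp (-εt * n) ≤ Real.exp (-ε1 * n) :=
    Real.exp_le_exp.2 (mul_le_mul_of_nonneg_right (neg_le_neg hε1t) hnpos.le)
  have hexpl : Real.exp (-εl * n) ≤ Real.exp (-ε1 * n) :=
    Real.exp_le_exp.2 (mul_le_mul_of_nonneg_right (neg_le_neg hε1l) hnpos.le)
  have hexpr : Real.exp (-εr * n) ≤ Real.exp (-ε1 * n) :=
    Real.exp_le_exp.2 (mul_le_mul_of_nonneg_right (neg_le_neg hε1r) hnpos.le)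
  have hres : ∀ w : ℕ, Complex.exp (n * Ph m (((0 : ℝ) : ℂ) * Complex.I) -
      w * (((0 : ℝ) : ℂ) * Complex.I)) = 1 := by
    intro w
    rw [Complex.ofReal_zero, zero_mul, hPh0]
    simp
  have hAB : (NR m 0 - ε - Δ) * n < (NR m 0 - ε) * n :=
    mul_lt_mul_of_pos_right (by linarith) hnpos
  have hDD : NR m 0 - ε - D0 ≤ NR m 0 - ε - Δ := by linarith
  obtain ⟨f1, f2, f3⟩ := h5 n (by omega)
  have a1 : ∀ w ∈ Finset.range (n + 1), (w : ℝ) ≤ (NR m 0 - ε - Δ) * n →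
      |1 - v w| ≤ Real.exp (-ε1 * n) := by
    intro w hw hb
    have e1 := h2 n w (by omega) hQz hb 0
    rw [hres] at e1
    have e2 := (Complex.abs_re_le_norm _).trans e1
    rw [Complex.sub_re, Complex.one_re, ← hv, abs_sub_comm] at e2
    exact e2.trans hexpl
  refine star_mono f3 (star_core hk n d v (mu3 m) ε' (Real.exp (-ε1 * n))
    (Real.exp (ε1 / 2 * n)) (fun w : ℕ => (w : ℝ) < (NR m 0 - ε) * n)
    (fun w : ℕ => (NR m 0 - ε - Δ) * n < (w : ℝ)) ?_ (Real.exp_pos _).le f1 (Real.exp_pos _).le f2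
    ?_ ?_ ?_ ?_ ?_ ?_ ?_ ?_)
  · have f2 : (n6 : ℝ) ≤ n := by
      have : n6 ≤ n := by omega
      exact_mod_cast this
    have f3 : 2 / ε' ≤ n := h6.trans f2
    rw [div_le_iff₀ hε'] at f3
    exact f3
  · intro w hw h
    exact a1 w hw (not_lt.1 h)
  · intro w hw
    rcases le_or_gt (w : ℝ) ((NR m 0 - ε - Δ) * n) with h | h
    · have := (abs_le.1 (a1 w hw h)).1
      linarith
    · have e0 : (NR m 0 - ε - D0) * n ≤ (w : ℝ) :=
        (mul_le_mul_of_nonneg_right hDD hnpos.le).trans h.le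
      have e1 := (h1 n w (by omega) (hwn w hw) hQz).1 e0
      rw [hv]
      exact e1.trans (by linarith)
  · intro w hw h
    have e1 := (h1 n w (by omega) (hwn w hw) hQz).2 (not_lt.1 h)
    rw [hv]
    linarith
  · intro w hw
    have e1 := h7 n w (by omega) (hwn w hw)
    rw [hv]
    linarith
  · intro w hw h
    exact lt_of_lt_of_le hAB (not_lt.1 h)
  · intro w hw h
    by_contra hcon
    have e1 : (w : ℝ) ≤ δ * n := by
      have : (w : ℝ) ≤ d := by exact_mod_cast (not_le.1 hcon).le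
      linarith
    have e2 : δ ≤ NR m 0 - ε - Δ := by linarith
    exact absurd h (not_lt.2 (e1.trans (mul_le_mul_of_nonneg_right e2 hnpos.le)))
  · intro f
    have hre : (∑ w ∈ Finset.range (n + 1), (n.choose w : ℂ) * vN m n w ε c 0 * (f w : ℂ)).re =
        ∑ w ∈ Finset.range (n + 1), (n.choose w : ℝ) * v w * f w := by
      rw [Complex.re_sum]
      refine Finset.sum_congr rfl fun w _ => ?_
      rw [Complex.re_mul_ofReal, ← Complex.ofReal_natCast, Complex.re_ofReal_mul, hv]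
    rw [← hre]
    exact (Complex.abs_re_le_norm _).trans (h4 n (by omega) hQz 0 f)
  · intro f
    have := h3 n (by omega) hQz f
    simp only [not_lt]
    exact this


lemma qz4_even (m : ℝ) (q r j n : ℕ) (p : ℤ) (hN : Nbar m * q = p) (hr : Odd r)
    (hj : Odd j) (hn : n = q * r * j) : Qz4 m (n + q) 1 := by
  refine ⟨Or.inl rfl, ?_⟩
  have hev : Even ((r : ℤ) * (j : ℤ) + 1) := by
    have h1 : Odd (r : ℤ) := by exact_mod_cast hr
    have h2 : Odd (j : ℤ) := by exact_mod_cast hj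
    exact (h1.mul h2).add_one
  obtain ⟨k, hk⟩ := hev
  have h1 : Real.pi * ((n + q : ℕ) : ℝ) * Nbar m = Real.pi * ((2 * (p * k) : ℤ) : ℝ) := by
    have e1 : ((r : ℝ) * (j : ℝ) + 1) = k + k := by exact_mod_cast hk
    rw [hn]
    push_cast
    rw [← hN]
    have e2 : (q * r * j + q : ℝ) = q * (r * j + 1) := by ring
    rw [e2, e1]
    ring
  rw [h1]
  have h2 : ((Real.pi * ((2 * (p * k) : ℤ) : ℝ) : ℝ) : ℂ) * Complex.I =
      ((p * k : ℤ) : ℂ) * (2 * Real.pi * Complex.I) := by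
    push_cast
    ring
  rw [h2, Complex.exp_int_mul_two_pi_mul_I]
  simp

/-- the dual of the mean of the two test functions -/
lemma dual_mean (hd : S4_dual) (m ε η ε₁ : ℝ) (q : ℕ) (hm : 0 < m) (hε : 0 < ε) (hη : 0 ≤ η)
    (he : ε + 2 * η < ε₁) : ∃ n₀ : ℕ, ∀ n : ℕ, n₀ ≤ n → ∀ f : ℕ → ℝ,
    |∑ w ∈ Finset.range (n + 1), (n.choose w : ℝ) * vm m q n ε η w * f w| ≤
      Real.exp (n * (mu4 m + ε₁)) * NN n f := by
  obtain ⟨n₁, h1⟩ := hd m ε hm hε
  obtain ⟨n₂, h2⟩ := exists_nat_ge ((q * (|mu4 m| + ε + 2 * η + 1)) / (ε₁ - ε - 2 * η))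
  refine ⟨n₁ + n₂, fun n hn f => ?_⟩
  obtain ⟨F, hF⟩ : ∃ F : ℕ → ℝ, F = fun w => ((n + q).choose w : ℝ)⁻¹ *
    ((n.choose w : ℝ) * f w) := ⟨_, rfl⟩
  have hFw : ∀ w, w ≤ n + q → ((n + q).choose w : ℝ) * F w = (n.choose w : ℝ) * f w := by
    intro w hw
    rw [hF]
    have : ((n + q).choose w : ℝ) ≠ 0 := by
      have := Nat.choose_pos hw
      positivity
    show ((n + q).choose w : ℝ) * (((n + q).choose w : ℝ)⁻¹ * ((n.choose w : ℝ) * f w)) = _
    rw [← mul_assoc, mul_inv_cancel₀ this, one_mul]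
  have hNF := NN_add q n f F hFw
  have hNN0 : 0 ≤ NN n f := by
    unfold NN
    exact Finset.sum_nonneg fun j _ => mul_nonneg (Nat.cast_nonneg _) (abs_nonneg _)
  have hre : ∀ (N : ℕ) (σ η' : ℝ) (M : ℕ) (c g : ℕ → ℝ),
      (∑ w ∈ Finset.range M, (c w : ℂ) * v4 m N w σ ε η' 0 * (g w : ℂ)).re =
      ∑ w ∈ Finset.range M, c w * (v4 m N w σ ε η' 0).re * g w := by
    intro N σ η' M c g
    rw [Complex.re_sum]
    refine Finset.sum_congr rfl fun w _ => ?_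
    rw [Complex.re_mul_ofReal, Complex.re_ofReal_mul]
  have hA := (Complex.abs_re_le_norm _).trans (h1 n (by omega) (-1) η 0 f (by norm_num))
  have hB := (Complex.abs_re_le_norm _).trans
    (h1 (n + q) (by omega) 1 (2 * η) 0 F (by norm_num))
  have eA := hre n (-1) η (n + 1) (fun w => (n.choose w : ℝ)) f
  have eB := hre (n + q) 1 (2 * η) (n + q + 1) (fun w => ((n + q).choose w : ℝ)) F
  simp only [Complex.ofReal_natCast] at eA eB
  rw [eA] at hA
  rw [eB] at hB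
  have eC : ∑ w ∈ Finset.range (n + q + 1), ((n + q).choose w : ℝ) *
      (v4 m (n + q) w 1 ε (2 * η) 0).re * F w =
      ∑ w ∈ Finset.range (n + 1), (n.choose w : ℝ) * (v4 m (n + q) w 1 ε (2 * η) 0).re * f w := by
    symm
    rw [← Finset.sum_subset (s₁ := Finset.range (n + 1)) (s₂ := Finset.range (n + q + 1))
      (Finset.range_mono (by omega))]
    · refine Finset.sum_congr rfl fun w hw => ?_
      have hw' : w ≤ n + q := by
        have := Finset.mem_range.1 hw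
        omega
      have := hFw w hw'
      calc (n.choose w : ℝ) * (v4 m (n + q) w 1 ε (2 * η) 0).re * f w =
          (v4 m (n + q) w 1 ε (2 * η) 0).re * ((n.choose w : ℝ) * f w) := by ring
        _ = (v4 m (n + q) w 1 ε (2 * η) 0).re * (((n + q).choose w : ℝ) * F w) := by rw [this]
        _ = _ := by ring
    · intro w hw hw'
      rw [Finset.mem_range] at hw hw'
      have h0 : n.choose w = 0 := Nat.choose_eq_zero_of_lt (by omega)
      have := hFw w (by omega)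
      rw [h0] at this
      calc ((n + q).choose w : ℝ) * (v4 m (n + q) w 1 ε (2 * η) 0).re * F w =
          (v4 m (n + q) w 1 ε (2 * η) 0).re * (((n + q).choose w : ℝ) * F w) := by ring
        _ = 0 := by rw [this]; simp
  rw [eC] at hB
  have hsum : ∑ w ∈ Finset.range (n + 1), (n.choose w : ℝ) * vm m q n ε η w * f w =
      ((∑ w ∈ Finset.range (n + 1), (n.choose w : ℝ) * (v4 m n w (-1) ε η 0).re * f w) +
      ∑ w ∈ Finset.range (n + 1), (n.choose w : ℝ) *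
        (v4 m (n + q) w 1 ε (2 * η) 0).re * f w) / 2 := by
    rw [← Finset.sum_add_distrib, Finset.sum_div]
    refine Finset.sum_congr rfl fun w _ => ?_
    unfold vm
    ring
  rw [hsum, abs_div, abs_two]
  have hn2 : q * (|mu4 m| + ε + 2 * η + 1) ≤ (ε₁ - ε - 2 * η) * n := by
    have e1 : (n₂ : ℝ) ≤ n := by
      have : n₂ ≤ n := by omega
      exact_mod_cast this
    have e2 := h2.trans e1
    rw [div_le_iff₀ (by linarith)] at e2
    linarith
  have hlog : Real.log 2 ≤ 1 := by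
    have := Real.log_two_lt_d9
    linarith
  have hs2e : (√2 : ℝ) ^ q = Real.exp (q * (1 / 2 * Real.log 2)) := by
    have e1 : (√2 : ℝ) = Real.exp (1 / 2 * Real.log 2) := by
      rw [Real.sqrt_eq_rpow, Real.rpow_def_of_pos (by norm_num)]
      congr 1
      ring
    rw [e1, ← Real.exp_nat_mul]
  have hq0 : (0 : ℝ) ≤ q := Nat.cast_nonneg _
  have hn0 : (0 : ℝ) ≤ n := Nat.cast_nonneg _
  have bA : Real.exp (n * (mu4 m + ε + |η|)) * NN n f ≤
      Real.exp (n * (mu4 m + ε₁)) * NN n f := by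
    refine mul_le_mul_of_nonneg_right (Real.exp_le_exp.2 (mul_le_mul_of_nonneg_left ?_ hn0)) hNN0
    rw [abs_of_nonneg hη]
    linarith
  have bB : Real.exp (((n + q : ℕ) : ℝ) * (mu4 m + ε + |2 * η|)) * NN (n + q) F ≤
      Real.exp (n * (mu4 m + ε₁)) * NN n f := by
    refine (mul_le_mul_of_nonneg_left hNF (Real.exp_pos _).le).trans ?_
    rw [← mul_assoc, hs2e, ← Real.exp_add]
    refine mul_le_mul_of_nonneg_right (Real.exp_le_exp.2 ?_) hNN0
    rw [abs_of_nonneg (by linarith : 0 ≤ 2 * η)]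
    push_cast
    have e1 : q * (mu4 m + ε + 2 * η + 1 / 2 * Real.log 2) ≤
        q * (|mu4 m| + ε + 2 * η + 1) := by
      refine mul_le_mul_of_nonneg_left ?_ hq0
      have := le_abs_self (mu4 m)
      linarith
    nlinarith
  have key := abs_add_le (∑ w ∈ Finset.range (n + 1), (n.choose w : ℝ) *
    (v4 m n w (-1) ε η 0).re * f w) (∑ w ∈ Finset.range (n + 1), (n.choose w : ℝ) *
        (v4 m (n + q) w 1 ε (2 * η) 0).re * f w)
  have := hA.trans bA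
  have := hB.trans bB
  linarith

/-- the second branch -/
theorem star4K (hk : S_kra) (hpg : S4_pg) (hqb : S4_qb) (hl : S4_left) (htr : S4_trans)
    (ho : S4_out) (ht : S4_thr) (hw4 : S4_w) (hd : S4_dual) (hn : S4_near) (m δ ε' : ℝ) (q : ℕ)
    (hm : 0 < m) (hδ : δ < 1 / 2 - 1 / 2 * THR 0 m) (hε' : 0 < ε') (hq : 0 < q)
    (hpq : ∃ p : ℤ, Odd p ∧ Nbar m * q = p) :
    ∃ e : ℝ, 0 < e ∧ ∃ r : ℕ, Odd r ∧ ∃ n₀ : ℕ, ∀ n : ℕ, n₀ ≤ n →
      (∃ j : ℕ, Odd j ∧ n = q * r * j) → ∀ d : ℕ, (d : ℝ) ≤ δ * n →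
      StarAt n d (1 + Real.exp (-e * n)) (Real.exp (n * (mu4 m + 1 / 2 * Real.log 2 + ε'))) := by
  obtain ⟨p, hpodd, hpN⟩ := hpq
  have hT := THR_pos hw4 hm
  obtain ⟨γ, hγ⟩ : ∃ γ : ℝ, γ = 1 - 2 * δ - THR 0 m := ⟨_, rfl⟩
  have hγ0 : 0 < γ := by
    rw [hγ]
    linarith
  obtain ⟨ε, hε⟩ : ∃ ε : ℝ, ε = min (ε' / 32) (1 / 4) := ⟨_, rfl⟩
  have hε0 : 0 < ε := by
    rw [hε]
    exact lt_min (by linarith) (by norm_num)
  have hε4 : ε ≤ 1 / 4 := by
    rw [hε]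
    exact min_le_right _ _
  have hεε' : ε ≤ ε' / 32 := by
    rw [hε]
    exact min_le_left _ _
  obtain ⟨η, hη⟩ : ∃ η : ℝ, η = min (min (γ / 4) ε) (THR 0 m) := ⟨_, rfl⟩
  have hη0 : 0 < η := by
    rw [hη]
    exact lt_min (lt_min (by linarith) hε0) hT
  have hηγ : η ≤ γ / 4 := by
    rw [hη]
    exact (min_le_left _ _).trans (min_le_left _ _)
  have hηε : η ≤ ε := by
    rw [hη]
    exact (min_le_left _ _).trans (min_le_right _ _)
  have hηT : η ≤ THR 0 m := by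
    rw [hη]
    exact min_le_right _ _
  obtain ⟨D0, hD0, hmix⟩ := mix4 hpg hqb hl htr ho ht hw4 m ε η q hm hε0 (by linarith) hη0
    (by linarith) hηT
  obtain ⟨Δ, hΔ⟩ : ∃ Δ : ℝ, Δ = min D0 (γ / 4) := ⟨_, rfl⟩
  have hΔ0 : 0 < Δ := by
    rw [hΔ]
    exact lt_min hD0 (by linarith)
  have hΔD : Δ ≤ D0 := by
    rw [hΔ]
    exact min_le_left _ _
  have hΔγ : Δ ≤ γ / 4 := by
    rw [hΔ]
    exact min_le_right _ _
  obtain ⟨e, he, n1, h1⟩ := hmix Δ hΔ0 hΔD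
  obtain ⟨n4, h4⟩ := dual_mean hd m ε η (ε' / 4) q hm hε0 hη0.le (by linarith)
  obtain ⟨r, hr, n3, h3⟩ := hn m q hm hq ⟨p, hpN⟩ η (e / 2) (ε' / 4) hη0 (by linarith)
    (by linarith)
  obtain ⟨n5, h5⟩ := factors he
  obtain ⟨n6, h6⟩ := exists_nat_ge (2 / ε')
  refine ⟨e / 4, by linarith, r, hr, n1 + n3 + n4 + n5 + n6 + 1, ?_⟩
  intro n hnn hjn d hdn
  obtain ⟨j, hj, hnj⟩ := hjn
  have hqz : Qz4 m n (-1) := MA4f.qz4_odd m q r j n p hpodd hpN hr hj hnj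
  have hqz' : Qz4 m (n + q) 1 := qz4_even m q r j n p hpN hr hj hnj
  have hdvd : q * r ∣ n := ⟨j, hnj⟩
  have hn1 : (1 : ℝ) ≤ n := by
    have : 1 ≤ n := by omega
    exact_mod_cast this
  have hnpos : (0 : ℝ) < n := by linarith
  have hwn : ∀ w ∈ Finset.range (n + 1), w ≤ n := fun w hw => by
    have := Finset.mem_range.1 hw
    omega
  obtain ⟨f1, f2, f3⟩ := h5 n (by omega)
  have hb : ∀ w : ℕ, 1 - 2 * (w : ℝ) / n - THR 0 m = 1 - 2 * ((w : ℝ) / n) - THR 0 m := by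
    intro w
    ring
  refine star_mono f3 (star_core hk n d (vm m q n ε η) (mu4 m) ε' (Real.exp (-e * n))
    (Real.exp (e / 2 * n)) (fun w : ℕ => η ≤ 1 - 2 * (w : ℝ) / n - THR 0 m)
    (fun w : ℕ => 1 - 2 * (w : ℝ) / n - THR 0 m < 2 * η + Δ) ?_ (Real.exp_pos _).le f1
    (Real.exp_pos _).le f2 ?_ ?_ ?_ ?_ ?_ ?_ ?_ ?_)
  · have f2 : (n6 : ℝ) ≤ n := by
      have : n6 ≤ n := by omega
      exact_mod_cast this
    have f3 : 2 / ε' ≤ n := h6.trans f2
    rw [div_le_iff₀ hε'] at f3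
    exact f3
  · intro w hw h
    rw [hb] at h
    exact (h1 n (by omega) hqz hqz' w (hwn w hw)).2.2.2 (not_lt.1 h)
  · intro w hw
    exact (h1 n (by omega) hqz hqz' w (hwn w hw)).2.1
  · intro w hw h
    rw [hb] at h
    exact (h1 n (by omega) hqz hqz' w (hwn w hw)).2.2.1 (not_le.1 h).le
  · intro w hw
    exact (h1 n (by omega) hqz hqz' w (hwn w hw)).1
  · intro w hw h
    have := not_le.1 h
    linarith
  · intro w hw h
    by_contra hcon
    have e1 : (w : ℝ) ≤ δ * n := by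
      have : (w : ℝ) ≤ d := by exact_mod_cast (not_le.1 hcon).le
      linarith
    have e2 : 2 * (w : ℝ) / n ≤ 2 * δ := by
      rw [div_le_iff₀ hnpos]
      linarith
    linarith
  · exact h4 n (by omega)
  · intro f
    have := h3 n (by omega) hdvd f
    simp only [not_le]
    exact this

end Pool.Agent.Q102.KB
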