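import Mathlib
import Pool.Agent.Y570.KP.Main

/-!
Q102/KB (helper102, MP_0430e4_lc): the `k`-point bound is exact as soon as `k` exceeds the size of the
largest code.
-/

set_option autoImplicit false
set_option linter.unusedSectionVars false

namespace Pool.Agent.Q102.KB

open Pool.Agent.TH41.BL Pool.Agent.Y570.KP

variable {n d k : ℕ}

lemma cs_cond {y : Finset (Fin n → Bool) → ℝ} (h : PC n d k y) (D : Finset (Fin n → Bool))
    (hD : D.card + 2 ≤ k) :
    (∑ x ∈ Finset.univ.filter (fun x => x ∉ D), y (insert x D)) ^ 2 ≤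
      y D * ∑ x ∈ Finset.univ.filter (fun x => x ∉ D),
        ∑ z ∈ Finset.univ.filter (fun x => x ∉ D), y (D ∪ ({x} ∪ {z})) := by
  classical
  obtain ⟨m, hm⟩ : ∃ m : ℝ, m = ∑ x ∈ Finset.univ.filter (fun x => x ∉ D), y (insert x D) :=
    ⟨_, rfl⟩
  obtain ⟨q, hq⟩ : ∃ q : ℝ, q = ∑ x ∈ Finset.univ.filter (fun x => x ∉ D),
    ∑ z ∈ Finset.univ.filter (fun x => x ∉ D), y (D ∪ ({x} ∪ {z})) := ⟨_, rfl⟩
  have hform : ∀ c e : ℝ, 0 ≤ c ^ 2 * y D + 2 * (c * e) * m + e ^ 2 * q := by
    intro c e
    have h1 := h.psd D ∅ (by simpa using hD) (fun s => s.elim c fun x => if x ∉ D then e else 0)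
    simp only [cond_empty, Fintype.sum_option, Option.toFinset_none,
      Option.toFinset_some, Option.elim_none, Option.elim_some, Finset.union_empty,
      Finset.empty_union] at h1
    refine h1.trans (le_of_eq ?_)
    have e1 : ∑ x, c * (if x ∉ D then e else 0) * y (D ∪ {x}) = c * e * m := by
      rw [hm, Finset.sum_filter, Finset.mul_sum]
      refine Finset.sum_congr rfl fun x _ => ?_
      by_cases hx : x ∈ D
      · simp [hx]
      · rw [if_pos hx, if_pos hx, Finset.union_comm, ← Finset.insert_eq]
    have e2 : ∑ x, (if x ∉ D then e else 0) * c * y (D ∪ {x}) = c * e * m := by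
      rw [← e1]
      exact Finset.sum_congr rfl fun x _ => by ring
    have e3 : ∑ x, ∑ z, (if x ∉ D then e else 0) * (if z ∉ D then e else 0) *
        y (D ∪ ({x} ∪ {z})) = e ^ 2 * q := by
      rw [hq, Finset.sum_filter, Finset.mul_sum]
      refine Finset.sum_congr rfl fun x _ => ?_
      by_cases hx : x ∈ D
      · simp [hx]
      · rw [if_pos hx, if_pos hx, Finset.sum_filter, Finset.mul_sum]
        refine Finset.sum_congr rfl fun z _ => ?_
        split_ifs <;> ring
    rw [Finset.sum_add_distrib, e1, e2, e3]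
    ring
  rw [← hm, ← hq]
  have hy : 0 ≤ y D := by
    have := hform 1 0
    simpa using this
  rcases hy.eq_or_lt with h0 | h0
  · have h1 : m = 0 := by
      by_contra hne
      have h2 := hform (-((q + 1) / m)) 1
      rw [← h0] at h2
      have h3 : (-((q + 1) / m)) ^ 2 * 0 + 2 * (-((q + 1) / m) * 1) * m + 1 ^ 2 * q =
          -2 * (q + 1) * (m / m) + q := by ring
      rw [h3, div_self hne] at h2
      have h4 := hform 0 1
      norm_num at h4
      linarith
    rw [h1, ← h0]
    simp
  · have h1 := hform (-m) (y D)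
    have h2 : (-m) ^ 2 * y D + 2 * (-m * y D) * m + y D ^ 2 * q = y D * (y D * q - m ^ 2) := by
      ring
    rw [h2] at h1
    have h3 := nonneg_of_mul_nonneg_right h1 h0
    linarith

/-- exactness -/
theorem exactK {y : Finset (Fin n → Bool) → ℝ} (h : PC n d k y) (M : ℕ) (hk : M + 1 ≤ k)
    (hM : ∀ C : Finset (Fin n → Bool), (∀ x ∈ C, ∀ z ∈ C, x ≠ z → d ≤ hammingDist x z) →
      C.card ≤ M) : ∑ x, y {x} ≤ M := by
  classical
  have hz : ∀ S : Finset (Fin n → Bool), M < S.card → y S = 0 := by
    intro S hS
    have h1 : ¬ ∀ x ∈ S, ∀ z ∈ S, x ≠ z → d ≤ hammingDist x z := fun h' => by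
      have := hM S h'
      omega
    push Not at h1
    obtain ⟨x, hx, z, hz, hxz, hd⟩ := h1
    exact h.dist S x hx z hz hxz hd
  have hy : ∀ S : Finset (Fin n → Bool), S.card ≤ k → 0 ≤ y S := by
    intro S hS
    have h1 := h.nonneg S ∅ (by simpa using hS)
    rwa [cond_empty, Finset.union_empty] at h1
  have key : ∀ t : ℕ, ∀ D : Finset (Fin n → Bool), D.card + t = M →
      ∑ x ∈ Finset.univ.filter (fun x => x ∉ D), y (insert x D) ≤ t * y D := by
    intro t
    induction t with
    | zero =>
      intro D hD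
      rw [Nat.cast_zero, zero_mul]
      refine le_of_eq (Finset.sum_eq_zero fun x hx => hz _ ?_)
      rw [Finset.card_insert_of_notMem (Finset.mem_filter.1 hx).2]
      omega
    | succ t ih =>
      intro D hD
      obtain ⟨m, hm⟩ : ∃ m : ℝ, m = ∑ x ∈ Finset.univ.filter (fun x => x ∉ D), y (insert x D) :=
        ⟨_, rfl⟩
      have hcs := cs_cond h D (by omega)
      rw [← hm] at hcs ⊢
      have hyD := hy D (by omega)
      have hm0 : 0 ≤ m := by
        rw [hm]
        refine Finset.sum_nonneg fun x hx => hy _ ?_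
        rw [Finset.card_insert_of_notMem (Finset.mem_filter.1 hx).2]
        omega
      have hq : ∑ x ∈ Finset.univ.filter (fun x => x ∉ D),
          ∑ z ∈ Finset.univ.filter (fun x => x ∉ D), y (D ∪ ({x} ∪ {z})) ≤ (t + 1) * m := by
        rw [hm, Finset.mul_sum]
        refine Finset.sum_le_sum fun x hx => ?_
        have hxD := (Finset.mem_filter.1 hx).2
        have h1 := ih (insert x D) (by rw [Finset.card_insert_of_notMem hxD]; omega)
        rw [← Finset.add_sum_erase _ _ hx]
        have h2 : D ∪ ({x} ∪ {x}) = insert x D := by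
          rw [Finset.union_idempotent, Finset.union_comm, ← Finset.insert_eq]
        have h3 : (Finset.univ.filter (fun x => x ∉ D)).erase x =
            Finset.univ.filter (fun z => z ∉ insert x D) := by
          ext z
          simp only [Finset.mem_erase, Finset.mem_filter, Finset.mem_univ, true_and,
            Finset.mem_insert, not_or]
        have h4 : ∀ z, D ∪ ({x} ∪ {z}) = insert z (insert x D) := by
          intro z
          ext w
          simp only [Finset.mem_union, Finset.mem_insert, Finset.mem_singleton]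
          tauto
        rw [h2, h3, Finset.sum_congr rfl fun z _ => by rw [h4 z]]
        linarith
      have h5 : m ^ 2 ≤ y D * ((t + 1) * m) := hcs.trans (mul_le_mul_of_nonneg_left hq hyD)
      rcases hm0.eq_or_lt with h6 | h6
      · rw [← h6]
        positivity
      · have h7 : m * m ≤ m * ((t + 1) * y D) := by nlinarith
        have h8 := le_of_mul_le_mul_left h7 h6
        push_cast
        exact h8
  have h1 := key M ∅ (by simp)
  have h2 : ∑ x ∈ Finset.univ.filter (fun x : Fin n → Bool => x ∉ (∅ : Finset (Fin n → Bool))),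
      y (insert x ∅) = ∑ x, y {x} := by
    simp
  rw [h2, h.one, mul_one] at h1
  exact h1

end Pool.Agent.Q102.KB
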