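import Mathlib
import Pool.Agent.Y570.KP.Cond

/-!
Q102/KB (helper102, MP_0430e4_lc): the product pseudo-mass satisfies the constraints of the
`k`-point semidefinite program, for numbers `k` which may be exponentially large.
-/

set_option autoImplicit false
set_option linter.unusedSectionVars false

namespace Pool.Agent.Q102.KB

open Finset Pool.Agent.Y570.KP

section

variable {X : Type} [Fintype X] [DecidableEq X] {G : X → X → ℝ} {K L ρ : ℝ}

/-- the numerical consequences of the smallness of `ρ` -/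
structure SmallK (K L ρ : ℝ) (k : ℕ) : Prop where
  K1 : 1 ≤ K
  KK : K ^ k ≤ 2
  L1 : 1 ≤ L
  ρ0 : 0 < ρ
  small : 32 * (k + 1) * (ρ * L) ≤ 1

/-- the sum over the nonempty subsets -/
lemma geo (E : Finset X) (x : ℝ) (hx : 0 ≤ x) {k : ℕ} (hE : E.card ≤ k) (hk : k * x ≤ 1) :
    ∑ F ∈ E.powerset.erase ∅, x ^ F.card ≤ 2 * (k * x) := by
  have h1 : ∑ F ∈ E.powerset, x ^ F.card = (x + 1) ^ E.card := by
    rw [← Finset.sum_pow_mul_eq_add_pow]
    refine Finset.sum_congr rfl fun F _ => ?_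
    rw [one_pow, mul_one]
  rw [← Finset.add_sum_erase _ _ (Finset.empty_mem_powerset E)] at h1
  simp only [Finset.card_empty, pow_zero] at h1
  have h2 : (x + 1) ^ E.card ≤ Real.exp (k * x) := by
    rw [Real.exp_nat_mul]
    calc (x + 1) ^ E.card ≤ (x + 1) ^ k := pow_le_pow_right₀ (by linarith) hE
      _ ≤ Real.exp x ^ k := pow_le_pow_left₀ (by linarith) (Real.add_one_le_exp x) k
  have hkx : 0 ≤ (k : ℝ) * x := mul_nonneg (Nat.cast_nonneg _) hx
  have h3 := Real.abs_exp_sub_one_le (x := k * x) (by rw [abs_of_nonneg hkx]; exact hk)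
  have h4 := le_abs_self (Real.exp (k * x) - 1)
  rw [abs_of_nonneg hkx] at h3
  linarith

lemma SmallK.aux {k : ℕ} (h : SmallK K L ρ k) :
    32 * ((k + 1) * ρ) ≤ 1 ∧ ρ * L ≤ 1 / 32 ∧ ρ ≤ ρ * L ∧ 0 < ρ * L := by
  have hρ := h.ρ0
  have hL0 : 0 < L := by linarith [h.L1]
  have h6 : ρ ≤ ρ * L := le_mul_of_one_le_right hρ.le h.L1
  have h0 : 0 < ρ * L := by positivity
  have hk : (0 : ℝ) ≤ k := Nat.cast_nonneg _
  have hs := h.small
  have e1 : (k + 1) * ρ ≤ (k + 1) * (ρ * L) := mul_le_mul_of_nonneg_left h6 (by linarith)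
  have e2 : 0 ≤ k * (ρ * L) := by positivity
  refine ⟨by linarith, by linarith, h6, h0⟩

lemma term_le {k : ℕ} (hG : Good G K L) (hS : SmallK K L ρ k) (D F : Finset X)
    (hd : Disjoint D F) (h : D.card + F.card ≤ k) :
    yy ρ G (D ∪ F) ≤ yy ρ G D * (2 * ρ) ^ F.card := by
  have hρ := hS.ρ0
  refine (yy_union_le hG hS.K1 hρ.le D F hd h).trans (mul_le_mul_of_nonneg_left ?_
    (yy_nonneg hρ.le D))
  have hK0 : 0 < K := by linarith [hS.K1]
  refine pow_le_pow_left₀ (by positivity) ?_ _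
  have := mul_le_mul_of_nonneg_left hS.KK hρ.le
  linarith

theorem nonneg_allK {k : ℕ} (hG : Good G K L) (hS : SmallK K L ρ k) (D E : Finset X)
    (h : D.card + E.card ≤ k) : 0 ≤ cond (yy ρ G) D E ∅ := by
  by_cases hDE : Disjoint D E
  swap
  · obtain ⟨e, he⟩ := Finset.not_disjoint_iff.1 hDE
    rw [cond_zero _ he.2 (Finset.mem_union_left _ he.1)]
  obtain ⟨h1, h2, h3, h4⟩ := hS.aux
  have hρ := hS.ρ0
  have hk : (0 : ℝ) ≤ k := Nat.cast_nonneg _
  unfold Y570.KP.cond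
  rw [← Finset.add_sum_erase _ _ (Finset.empty_mem_powerset E)]
  simp only [Finset.card_empty, pow_zero, one_mul, Finset.union_empty]
  have hy := yy_nonneg hρ.le (G := G) D
  have h6 : ∀ F ∈ E.powerset.erase ∅,
      -(yy ρ G D * (2 * ρ) ^ F.card) ≤ (-1) ^ F.card * yy ρ G (D ∪ F) := by
    intro F hF
    rw [Finset.mem_erase, Finset.mem_powerset] at hF
    have hd : Disjoint D F := Finset.disjoint_of_subset_right hF.2 hDE
    have hcF : F.card ≤ E.card := Finset.card_le_card hF.2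
    have h7 := term_le hG hS D F hd (by omega)
    have h11 : |(-1 : ℝ) ^ F.card * yy ρ G (D ∪ F)| = yy ρ G (D ∪ F) := by
      rw [abs_mul, abs_pow, abs_neg, abs_one, one_pow, one_mul, abs_of_nonneg (yy_nonneg hρ.le _)]
    have h12 := neg_abs_le ((-1 : ℝ) ^ F.card * yy ρ G (D ∪ F))
    linarith
  have h13 := Finset.sum_le_sum h6
  rw [Finset.sum_neg_distrib, ← Finset.mul_sum] at h13
  have h14 := geo E (2 * ρ) (by linarith) (k := k) (by omega) (by nlinarith)
  have h15 := mul_le_mul_of_nonneg_left h14 hy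
  have h16 : yy ρ G D * (2 * (k * (2 * ρ))) ≤ yy ρ G D * 1 := by
    refine mul_le_mul_of_nonneg_left ?_ hy
    nlinarith
  linarith

/-- the upper bound of the corrections -/
lemma QQ_upperK {k : ℕ} (hG : Good G K L) (hS : SmallK K L ρ k) (D F : Finset X)
    (hDF : Disjoint D F) (hD : D.card ≤ k) (hF : F.card ≤ k) (a : Option X → ℝ)
    (ha : ∀ x ∈ F, a (some x) = 0) :
    |QQ ρ G (D ∪ F) a| ≤ yy ρ G (D ∪ F) *
      (2 * (a none + ∑ x ∈ D, a (some x) + ∑ x, vv ρ G D x * a (some x)) ^ 2 +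
      (16 * (ρ * L ^ 2) * F.card ^ 2 + (2 + 8 * (ρ * L))) *
        ∑ x, vv ρ G D x * a (some x) ^ 2) := by
  have hK := hS.K1
  have hKK := hS.KK
  have hρ := hS.ρ0.le
  have hL : 0 < L := by linarith [hS.L1]
  rw [QQ_eq hG, abs_mul, abs_of_nonneg (yy_nonneg hρ _)]
  refine mul_le_mul_of_nonneg_left ?_ (yy_nonneg hρ _)
  have hK0 : 0 ≤ K := by linarith
  obtain ⟨v, hv⟩ : ∃ v : X → ℝ, v = vv ρ G D := ⟨_, rfl⟩
  obtain ⟨g, hg⟩ : ∃ g : X → ℝ, g = fun x => ∏ s ∈ F, G x s := ⟨_, rfl⟩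
  have hvv : ∀ x, vv ρ G (D ∪ F) x = v x * g x := fun x => by rw [vv_union ρ G hDF, hv, hg]
  have hv0 : ∀ x, 0 ≤ v x := fun x => by rw [hv]; exact vv_nonneg hG hρ D x
  have hg0 : ∀ x, 0 ≤ g x := fun x => by rw [hg]; exact prod_nonneg' hG F x
  have hvle : ∀ x, v x ≤ 2 * ρ := fun x => by
    rw [hv]
    refine (vv_le hG hK hρ D x hD).trans ?_
    nlinarith
  have hgle : ∀ x, g x ≤ 2 := fun x => by rw [hg]; exact (prod_le hG hK F x hF).trans hKK
  have hsumDF : ∑ x ∈ D ∪ F, a (some x) = ∑ x ∈ D, a (some x) := by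
    rw [Finset.sum_union hDF, Finset.sum_eq_zero ha, add_zero]
  rw [hsumDF]
  simp only [hvv]
  rw [← hv]
  obtain ⟨B, hB⟩ : ∃ B : ℝ, B = a none + ∑ x ∈ D, a (some x) + ∑ x, v x * a (some x) := ⟨_, rfl⟩
  obtain ⟨V, hV⟩ : ∃ V : ℝ, V = ∑ x, v x * a (some x) ^ 2 := ⟨_, rfl⟩
  have hV0 : 0 ≤ V := by
    rw [hV]
    exact Finset.sum_nonneg fun x _ => mul_nonneg (hv0 x) (sq_nonneg _)
  obtain ⟨T, hT⟩ : ∃ T : ℝ, T = ∑ x, v x * (g x - 1) * a (some x) := ⟨_, rfl⟩
  have e1 : a none + ∑ x ∈ D, a (some x) + ∑ x, v x * g x * a (some x) = B + T := by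
    rw [hB, hT, add_assoc (a none + _), ← Finset.sum_add_distrib]
    congr 1
    refine Finset.sum_congr rfl fun x _ => ?_
    ring
  rw [e1, ← hB, ← hV]
  -- the square of T
  have hT2 : T ^ 2 ≤ (8 * (ρ * L ^ 2) * F.card ^ 2) * V := by
    have c1 : T ^ 2 ≤ (∑ x, v x * (g x - 1) ^ 2) * V := by
      have c2 := Finset.sum_mul_sq_le_sq_mul_sq Finset.univ (fun x => √(v x) * (g x - 1))
        (fun x => √(v x) * a (some x))
      have c3 : ∑ x, √(v x) * (g x - 1) * (√(v x) * a (some x)) = T := by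
        rw [hT]
        refine Finset.sum_congr rfl fun x _ => ?_
        have := Real.mul_self_sqrt (hv0 x)
        calc √(v x) * (g x - 1) * (√(v x) * a (some x)) =
            (√(v x) * √(v x)) * (g x - 1) * a (some x) := by ring
          _ = _ := by rw [this]
      have c4 : ∑ x, (√(v x) * (g x - 1)) ^ 2 = ∑ x, v x * (g x - 1) ^ 2 := by
        refine Finset.sum_congr rfl fun x _ => ?_
        rw [mul_pow, Real.sq_sqrt (hv0 x)]
      have c5 : ∑ x, (√(v x) * a (some x)) ^ 2 = V := by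
        rw [hV]
        refine Finset.sum_congr rfl fun x _ => ?_
        rw [mul_pow, Real.sq_sqrt (hv0 x)]
      rw [c3, c4, c5] at c2
      exact c2
    have c6 : ∑ x, v x * (g x - 1) ^ 2 ≤ 8 * (ρ * L ^ 2) * F.card ^ 2 := by
      have hKf : K ^ (2 * F.card) ≤ 4 := by
        have g1 : K ^ F.card ≤ 2 := (pow_le_pow_right₀ hK hF).trans hKK
        have g2 : 0 ≤ K ^ F.card := pow_nonneg hK0 _
        have g3 : K ^ (2 * F.card) = K ^ F.card * K ^ F.card := by
          rw [← pow_add]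
          congr 1
          ring
        rw [g3]
        nlinarith
      have c7 : ∀ x, v x * (g x - 1) ^ 2 ≤
          8 * ρ * F.card * ∑ f ∈ F, (G x f - 1) ^ 2 := by
        intro x
        have c8 := prod_sub_sq hG hK F x le_rfl
        have hs : 0 ≤ ∑ f ∈ F, (G x f - 1) ^ 2 := Finset.sum_nonneg fun _ _ => sq_nonneg _
        have c9 : (g x - 1) ^ 2 ≤ F.card * 4 * ∑ f ∈ F, (G x f - 1) ^ 2 := by
          rw [hg]
          refine c8.trans (mul_le_mul_of_nonneg_right ?_ hs)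
          exact mul_le_mul_of_nonneg_left hKf (Nat.cast_nonneg _)
        calc v x * (g x - 1) ^ 2 ≤ (2 * ρ) * (F.card * 4 * ∑ f ∈ F, (G x f - 1) ^ 2) :=
              mul_le_mul (hvle x) c9 (sq_nonneg _) (by linarith)
          _ = _ := by ring
      calc ∑ x, v x * (g x - 1) ^ 2
          ≤ ∑ x, 8 * ρ * F.card * ∑ f ∈ F, (G x f - 1) ^ 2 :=
            Finset.sum_le_sum fun x _ => c7 x
        _ = 8 * ρ * F.card * ∑ f ∈ F, ∑ x, (G x f - 1) ^ 2 := by
            rw [← Finset.mul_sum, Finset.sum_comm]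
        _ ≤ 8 * ρ * F.card * (F.card * L ^ 2) := by
            refine mul_le_mul_of_nonneg_left ?_ (by positivity)
            calc ∑ f ∈ F, ∑ x, (G x f - 1) ^ 2 ≤ ∑ _f ∈ F, L ^ 2 :=
                  Finset.sum_le_sum fun f _ => sum_sq_le hG hL f
              _ = F.card * L ^ 2 := by rw [Finset.sum_const, nsmul_eq_mul]
        _ = 8 * (ρ * L ^ 2) * F.card ^ 2 := by ring
    exact c1.trans (mul_le_mul_of_nonneg_right c6 hV0)
  have hS1 : ∑ x, v x * g x * a (some x) ^ 2 ≤ 2 * V := by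
    rw [hV, Finset.mul_sum]
    refine Finset.sum_le_sum fun x _ => ?_
    have : v x * g x * a (some x) ^ 2 = g x * (v x * a (some x) ^ 2) := by ring
    rw [this]
    exact mul_le_mul_of_nonneg_right (hgle x) (mul_nonneg (hv0 x) (sq_nonneg _))
  have hS0 : 0 ≤ ∑ x, v x * g x * a (some x) ^ 2 :=
    Finset.sum_nonneg fun x _ => mul_nonneg (mul_nonneg (hv0 x) (hg0 x)) (sq_nonneg _)
  have hq := quad_le hG hL.le (fun x => v x * g x) (4 * ρ)
    (fun x => mul_nonneg (hv0 x) (hg0 x)) (fun x => by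
      have := mul_le_mul (hvle x) (hgle x) (hg0 x) (by linarith)
      linarith)
    (fun x => a (some x))
  have hq2 : L * (4 * ρ) * ∑ x, v x * g x * a (some x) ^ 2 ≤
      L * (4 * ρ) * (2 * V) :=
    mul_le_mul_of_nonneg_left hS1 (by positivity)
  have hBT : (B + T) ^ 2 ≤ 2 * B ^ 2 + 2 * T ^ 2 := by nlinarith [sq_nonneg (B - T)]
  rw [abs_le]
  have hq3 := abs_le.1 hq
  have hBT0 := sq_nonneg (B + T)
  have hT0 := sq_nonneg T
  have hB0 := sq_nonneg B
  have hc0 : 0 ≤ (8 * (ρ * L ^ 2) * F.card ^ 2) * V := hT0.trans hT2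
  constructor
  · have := hq3.1
    nlinarith
  · have := hq3.2
    nlinarith

theorem psd_allK {k : ℕ} (hG : Good G K L) (hS : SmallK K L ρ k) (D E : Finset X)
    (h : D.card + E.card ≤ k) (a : Option X → ℝ) :
    0 ≤ ∑ s : Option X, ∑ t : Option X,
      a s * a t * cond (yy ρ G) D E (s.toFinset ∪ t.toFinset) := by
  by_cases hDE : Disjoint D E
  swap
  · obtain ⟨e, he⟩ := Finset.not_disjoint_iff.1 hDE
    refine le_of_eq (Eq.symm ?_)
    refine Finset.sum_eq_zero fun s _ => Finset.sum_eq_zero fun t _ => ?_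
    rw [cond_zero _ he.2 (Finset.mem_union_left _ he.1), mul_zero]
  obtain ⟨h1, h2, h3, h4⟩ := hS.aux
  have hK := hS.K1
  have hρ := hS.ρ0
  have hL0 : 0 < L := by linarith [hS.L1]
  have hk0 : (0 : ℝ) ≤ k := Nat.cast_nonneg _
  -- remove the rows of `E`
  obtain ⟨b, hb⟩ : ∃ b : Option X → ℝ, b = fun s => if s.toFinset ⊆ E ∧ s.isSome then 0 else a s :=
    ⟨_, rfl⟩
  have hbE : ∀ x ∈ E, b (some x) = 0 := by
    intro x hx
    rw [hb]
    simp [hx]
  have hab : ∀ s : Option X, (∀ e ∈ E, e ∉ s.toFinset) → a s = b s := by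
    intro s hs
    rw [hb]
    rcases s with - | x
    · simp
    · have : x ∉ E := fun hx => hs x hx (by simp)
      simp [this]
  have hrep : ∑ s : Option X, ∑ t : Option X,
      a s * a t * cond (yy ρ G) D E (s.toFinset ∪ t.toFinset) =
      ∑ s : Option X, ∑ t : Option X,
        b s * b t * cond (yy ρ G) D E (s.toFinset ∪ t.toFinset) := by
    refine Finset.sum_congr rfl fun s _ => Finset.sum_congr rfl fun t _ => ?_
    by_cases hc : ∃ e ∈ E, e ∈ s.toFinset ∪ t.toFinset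
    · obtain ⟨e, he1, he2⟩ := hc
      rw [cond_zero _ he1 (Finset.mem_union_right _ he2), mul_zero, mul_zero]
    · push Not at hc
      rw [hab s fun e he h' => hc e he (Finset.mem_union_left _ h'),
        hab t fun e he h' => hc e he (Finset.mem_union_right _ h')]
  rw [hrep]
  -- the alternating sum of the forms
  have halt : ∑ s : Option X, ∑ t : Option X,
      b s * b t * cond (yy ρ G) D E (s.toFinset ∪ t.toFinset) =
      ∑ F ∈ E.powerset, (-1) ^ F.card * QQ ρ G (D ∪ F) b := by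
    unfold Y570.KP.cond QQ
    simp_rw [Finset.mul_sum]
    rw [Finset.sum_comm' (s := E.powerset) (t := fun _ => (Finset.univ : Finset (Option X)))
      (t' := (Finset.univ : Finset (Option X))) (s' := fun _ => E.powerset) (by simp)]
    refine Finset.sum_congr rfl fun s _ => ?_
    rw [Finset.sum_comm' (s := E.powerset) (t := fun _ => (Finset.univ : Finset (Option X)))
      (t' := (Finset.univ : Finset (Option X))) (s' := fun _ => E.powerset) (by simp)]
    refine Finset.sum_congr rfl fun t _ => Finset.sum_congr rfl fun F _ => ?_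
    ring
  rw [halt, ← Finset.add_sum_erase _ _ (Finset.empty_mem_powerset E)]
  simp only [Finset.card_empty, pow_zero, one_mul, Finset.union_empty]
  have hy := yy_nonneg hρ.le (G := G) D
  -- the main term
  have hs : L * (ρ * K ^ k) ≤ 1 / 2 := by
    have e2 : (ρ * L) * K ^ k ≤ (ρ * L) * 2 := mul_le_mul_of_nonneg_left hS.KK h4.le
    have e3 : L * (ρ * K ^ k) = (ρ * L) * K ^ k := by ring
    rw [e3]
    linarith
  have hmain := QQ_lower hG hK hL0.le hρ.le D (k := k) (by omega) hs b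
  obtain ⟨B2, hB2⟩ : ∃ B2 : ℝ, B2 = (b none + ∑ x ∈ D, b (some x) +
    ∑ x, vv ρ G D x * b (some x)) ^ 2 := ⟨_, rfl⟩
  obtain ⟨V, hV⟩ : ∃ V : ℝ, V = ∑ x, vv ρ G D x * b (some x) ^ 2 := ⟨_, rfl⟩
  have hB20 : 0 ≤ B2 := by rw [hB2]; exact sq_nonneg _
  have hV0 : 0 ≤ V := by
    rw [hV]
    exact Finset.sum_nonneg fun x _ => mul_nonneg (vv_nonneg hG hρ.le D x) (sq_nonneg _)
  rw [← hB2, ← hV] at hmain
  have hcor : ∀ F ∈ E.powerset.erase ∅, -(yy ρ G D * ((8 * ρ) ^ F.card * (4 * (ρ * L ^ 2) * V) +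
      (2 * ρ) ^ F.card * (2 * B2 + (2 + 8 * (ρ * L)) * V))) ≤
      (-1) ^ F.card * QQ ρ G (D ∪ F) b := by
    intro F hF
    rw [Finset.mem_erase, Finset.mem_powerset] at hF
    have hd : Disjoint D F := Finset.disjoint_of_subset_right hF.2 hDE
    have hcF : F.card ≤ E.card := Finset.card_le_card hF.2
    have h10 := term_le hG hS D F hd (by omega)
    have h11 := QQ_upperK hG hS D F hd (by omega) (by omega) b
      (fun x hx => hbE x (hF.2 hx))
    rw [← hB2, ← hV] at h11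
    have h12 : |(-1 : ℝ) ^ F.card * QQ ρ G (D ∪ F) b| = |QQ ρ G (D ∪ F) b| := by
      rw [abs_mul, abs_pow, abs_neg, abs_one, one_pow, one_mul]
    have h13 := neg_abs_le ((-1 : ℝ) ^ F.card * QQ ρ G (D ∪ F) b)
    have h14 : yy ρ G (D ∪ F) * (2 * B2 + (16 * (ρ * L ^ 2) * F.card ^ 2 +
        (2 + 8 * (ρ * L))) * V) ≤ yy ρ G D * (2 * ρ) ^ F.card *
        (2 * B2 + (16 * (ρ * L ^ 2) * F.card ^ 2 + (2 + 8 * (ρ * L))) * V) :=
      mul_le_mul_of_nonneg_right h10 (by positivity)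
    have hf1 : 1 ≤ F.card := Finset.card_pos.2 (Finset.nonempty_iff_ne_empty.2 hF.1)
    have hsq : ∀ f : ℕ, 1 ≤ f → 4 * (f : ℝ) ^ 2 ≤ (4 : ℝ) ^ f := by
      intro f hf
      induction f, hf using Nat.le_induction with
      | base => norm_num
      | succ f hf ih =>
        rw [pow_succ (4 : ℝ) f]
        have hf' : (1 : ℝ) ≤ f := by exact_mod_cast hf
        push_cast
        nlinarith
    have h15 : (2 * ρ) ^ F.card * (16 * (ρ * L ^ 2) * F.card ^ 2 * V) ≤
        (8 * ρ) ^ F.card * (4 * (ρ * L ^ 2) * V) := by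
      have e1 : (8 * ρ) ^ F.card = (2 * ρ) ^ F.card * 4 ^ F.card := by
        rw [← mul_pow]
        congr 1
        ring
      have e2 := mul_le_mul_of_nonneg_right (hsq F.card hf1)
        (show 0 ≤ 4 * (ρ * L ^ 2) * V by positivity)
      have e3 : (0 : ℝ) ≤ (2 * ρ) ^ F.card := by positivity
      calc (2 * ρ) ^ F.card * (16 * (ρ * L ^ 2) * (F.card : ℝ) ^ 2 * V) =
          (2 * ρ) ^ F.card * (4 * (F.card : ℝ) ^ 2 * (4 * (ρ * L ^ 2) * V)) := by ring
        _ ≤ (2 * ρ) ^ F.card * (4 ^ F.card * (4 * (ρ * L ^ 2) * V)) :=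
            mul_le_mul_of_nonneg_left e2 e3
        _ = _ := by rw [e1]; ring
    have h16 := mul_le_mul_of_nonneg_left h15 hy
    have h17 : yy ρ G D * (2 * ρ) ^ F.card *
        (2 * B2 + (16 * (ρ * L ^ 2) * F.card ^ 2 + (2 + 8 * (ρ * L))) * V) =
        yy ρ G D * ((2 * ρ) ^ F.card * (16 * (ρ * L ^ 2) * F.card ^ 2 * V)) +
        yy ρ G D * ((2 * ρ) ^ F.card * (2 * B2 + (2 + 8 * (ρ * L)) * V)) := by ring
    rw [mul_add]
    linarith
  have h13 := Finset.sum_le_sum hcor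
  rw [Finset.sum_neg_distrib, ← Finset.mul_sum, Finset.sum_add_distrib, ← Finset.sum_mul,
    ← Finset.sum_mul] at h13
  have g8 := geo E (8 * ρ) (by linarith) (k := k) (by omega) (by nlinarith)
  have g2 := geo E (2 * ρ) (by linarith) (k := k) (by omega) (by nlinarith)
  have m8 := mul_le_mul_of_nonneg_right g8 (show 0 ≤ 4 * (ρ * L ^ 2) * V by positivity)
  have m2 := mul_le_mul_of_nonneg_right g2
    (show 0 ≤ 2 * B2 + (2 + 8 * (ρ * L)) * V by positivity)
  have mm := mul_le_mul_of_nonneg_left (add_le_add m8 m2) hy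
  -- the constants
  have c0 : 2 * (k * (8 * ρ)) * (4 * (ρ * L ^ 2) * V) +
      2 * (k * (2 * ρ)) * (2 * B2 + (2 + 8 * (ρ * L)) * V) ≤ B2 + 1 / 2 * V := by
    obtain ⟨t, ht⟩ : ∃ t : ℝ, t = ρ * L := ⟨_, rfl⟩
    have hs := hS.small
    rw [← ht] at hs h2 h3 h4
    have hkt : k * t ≤ 1 / 32 := by nlinarith
    have hkt0 : 0 ≤ k * t := by positivity
    have hkρ : k * ρ ≤ 1 / 32 := by
      have : (k : ℝ) * ρ ≤ k * t := mul_le_mul_of_nonneg_left h3 hk0
      linarith
    have hkρ0 : 0 ≤ k * ρ := by positivity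
    have e1 : 2 * (k * (8 * ρ)) * (4 * (ρ * L ^ 2) * V) = 64 * (k * t) * t * V := by
      rw [ht]
      ring
    have e2 : 2 * (k * (2 * ρ)) * (2 * B2 + (2 + 8 * t) * V) =
        8 * (k * ρ) * B2 + (k * ρ) * (8 + 32 * t) * V := by ring
    rw [e1, ← ht, e2]
    have e3 : 64 * (k * t) * t ≤ 1 / 16 := by nlinarith
    have e4 : (k * ρ) * (8 + 32 * t) ≤ 9 / 32 := by nlinarith
    have e5 := mul_le_mul_of_nonneg_right e3 hV0
    have e6 := mul_le_mul_of_nonneg_right e4 hV0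
    have e7 : 8 * (k * ρ) * B2 ≤ 1 * B2 := mul_le_mul_of_nonneg_right (by linarith) hB20
    linarith
  have c1 := mul_le_mul_of_nonneg_left c0 hy
  linarith

end

end Pool.Agent.Q102.KB
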