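import Mathlib
import Pool.Agent.Y570.KP.Main
import Pool.Agent.Q102.KB.Asym
import Pool.Agent.Q102.KB.PsdK
import Pool.Agent.TH41.BL.DEL

/-!
Q102/KB (helper102, MP_0430e4_lc): the `k`-point semidefinite bounds for numbers `k` which may be
exponentially large.
-/

set_option autoImplicit false
set_option linter.unusedSectionVars false

open Filter Topology

namespace Pool.Agent.Q102.KB

open Pool.Agent.TH41.BL Pool.Agent.Y570.KP

variable {n d k : ℕ}

/-- pseudo-codes from kernels -/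
lemma pc_of_goodK {G : (Fin n → Bool) → (Fin n → Bool) → ℝ} {K L ρ : ℝ} (hG : Good G K L)
    (hd : ∀ u v, hammingDist u v < d → G u v = 0) (hS : SmallK K L ρ k) :
    PC n d k (yy ρ G) := by
  refine ⟨yy_empty, ?_, fun D E hDE => nonneg_allK hG hS D E hDE,
    fun D E hDE => psd_allK hG hS D E (by omega)⟩
  intro S u hu v hv huv hlt
  unfold yy pr
  have : ∏ p ∈ S.offDiag, √(G p.1 p.2) = 0 := by
    refine Finset.prod_eq_zero (i := (u, v)) (Finset.mem_offDiag.2 ⟨hu, hv, huv⟩) ?_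
    rw [hd u v hlt, Real.sqrt_zero]
  rw [this, mul_zero]

/-- the lower bound -/
theorem lowerK {δ x : ℝ} (h : KE δ x) (ε : ℝ) (hε : 0 < ε) :
    ∃ κ : ℝ, 0 < κ ∧ ∃ n₀ : ℕ, ∀ n : ℕ, n₀ ≤ n → ∀ k : ℕ, 1 ≤ k → (k : ℝ) ≤ Real.exp (κ * n) →
      ∀ d : ℕ, 1 ≤ d → (d : ℝ) ≤ δ * n + 1 →
      ∀ w : (Fin n → Bool) → ℝ, (∀ u, 0 ≤ w u) →
      Real.exp (n * (x - ε)) * ∑ u, w u ≤ 2 ^ n * SW n d k w := by
  obtain ⟨c, hc, n₀, hn₀⟩ := h (ε / 2) (half_pos hε)
  obtain ⟨κ, hκ⟩ : ∃ κ : ℝ, κ = min (c / 2) (ε / 4) := ⟨_, rfl⟩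
  have hκ0 : 0 < κ := by
    rw [hκ]
    exact lt_min (by linarith) (by linarith)
  have hκc : κ ≤ c / 2 := by
    rw [hκ]
    exact min_le_left _ _
  have hκε : κ ≤ ε / 4 := by
    rw [hκ]
    exact min_le_right _ _
  obtain ⟨n₁, hn₁⟩ := exists_nat_ge (2 / c)
  obtain ⟨n₂, hn₂⟩ := exists_nat_ge (256 / ε)
  refine ⟨κ, hκ0, n₀ + n₁ + n₂, fun n hn k hk1 hk d hd1 hd w hw => ?_⟩
  obtain ⟨G, hG, hGd⟩ := hn₀ n (by omega) d hd1 hd
  have hnp : (0 : ℝ) ≤ n := Nat.cast_nonneg n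
  have hn1 : 2 ≤ c * n := by
    have h1 : (n₁ : ℝ) ≤ n := by exact_mod_cast (by omega : n₁ ≤ n)
    have h2 := hn₁.trans h1
    rw [div_le_iff₀ hc] at h2
    linarith
  have hn2 : 256 ≤ n * ε := by
    have h1 : (n₂ : ℝ) ≤ n := by exact_mod_cast (by omega : n₂ ≤ n)
    have h2 := hn₂.trans h1
    rw [div_le_iff₀ hε] at h2
    linarith
  obtain ⟨K, hK⟩ : ∃ K : ℝ, K = 1 + Real.exp (-c * n) := ⟨_, rfl⟩
  obtain ⟨L, hL⟩ : ∃ L : ℝ, L = Real.exp (n * (Real.log 2 - x + ε / 2)) := ⟨_, rfl⟩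
  rw [← hK, ← hL] at hG
  have hK1 : 1 ≤ K := by
    rw [hK]
    linarith [Real.exp_pos (-c * n)]
  have hL0 : 0 < L := by rw [hL]; exact Real.exp_pos _
  have hL1 : 1 ≤ L := hG.one_le
  have hKk : K ^ k ≤ 2 := by
    have e1 : K ≤ Real.exp (Real.exp (-c * n)) := by
      rw [hK]
      have := Real.add_one_le_exp (Real.exp (-c * n))
      linarith
    have e2 : K ^ k ≤ Real.exp (Real.exp (-c * n)) ^ k :=
      pow_le_pow_left₀ (by linarith) e1 k
    rw [← Real.exp_nat_mul] at e2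
    have e3 : (k : ℝ) * Real.exp (-c * n) ≤ Real.exp (-1) := by
      calc (k : ℝ) * Real.exp (-c * n) ≤ Real.exp (κ * n) * Real.exp (-c * n) :=
            mul_le_mul_of_nonneg_right hk (Real.exp_pos _).le
        _ = Real.exp (κ * n - c * n) := by
            rw [← Real.exp_add]
            congr 1
            ring
        _ ≤ Real.exp (-1) := by
            refine Real.exp_le_exp.2 ?_
            have := mul_le_mul_of_nonneg_right hκc hnp
            linarith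
    have e4 : Real.exp (-1) ≤ 1 / 2 := by
      have h1 := Real.add_one_le_exp (1 : ℝ)
      rw [Real.exp_neg, ← one_div]
      exact one_div_le_one_div_of_le (by norm_num) (by linarith)
    have e5 : Real.exp ((k : ℝ) * Real.exp (-c * n)) ≤ Real.exp (1 / 2) :=
      Real.exp_le_exp.2 (e3.trans e4)
    have e6 : Real.exp (1 / 2) ≤ 2 := by
      have h1 := Real.abs_exp_sub_one_le (x := 1 / 2) (by norm_num [abs_of_pos])
      have h2 := le_abs_self (Real.exp (1 / 2) - 1)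
      rw [abs_of_pos (by norm_num : (0 : ℝ) < 1 / 2)] at h1
      linarith
    exact e2.trans (e5.trans e6)
  obtain ⟨ρ, hρ⟩ : ∃ ρ : ℝ, ρ = (32 * (k + 1) * L)⁻¹ := ⟨_, rfl⟩
  have hk0 : (0 : ℝ) ≤ k := Nat.cast_nonneg _
  have hρ0 : 0 < ρ := by rw [hρ]; positivity
  have hS : SmallK K L ρ k := by
    refine ⟨hK1, hKk, hL1, hρ0, le_of_eq ?_⟩
    rw [hρ]
    field_simp
  have hpc := pc_of_goodK (d := d) hG hGd hS
  have hval : ρ * ∑ u, w u ≤ SW n d k w := by
    refine le_csSup (bdd_SW hk1 hw) ⟨_, hpc, ?_⟩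
    rw [Finset.mul_sum]
    refine Finset.sum_congr rfl fun u _ => ?_
    rw [yy_single]
    ring
  have hw0 : 0 ≤ ∑ u, w u := Finset.sum_nonneg fun u _ => hw u
  have hexp : Real.exp (n * (x - ε)) ≤ 2 ^ n * ρ := by
    have h2 : (2 : ℝ) ^ n = Real.exp (n * Real.log 2) := by
      rw [Real.exp_nat_mul, Real.exp_log two_pos]
    have hk1' : (1 : ℝ) ≤ k := by exact_mod_cast hk1
    have h3 : 32 * (k + 1) ≤ Real.exp (n * (ε / 2)) := by
      have h4 : 64 ≤ Real.exp (n * (ε / 4)) := by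
        have h5 := Real.add_one_le_exp (n * (ε / 4))
        linarith
      have h5 : (k : ℝ) ≤ Real.exp (n * (ε / 4)) := by
        refine hk.trans (Real.exp_le_exp.2 ?_)
        have := mul_le_mul_of_nonneg_right hκε hnp
        linarith
      have h6 : Real.exp (n * (ε / 2)) = Real.exp (n * (ε / 4)) * Real.exp (n * (ε / 4)) := by
        rw [← Real.exp_add]
        congr 1
        ring
      rw [h6]
      have h7 : 32 * ((k : ℝ) + 1) ≤ 64 * k := by linarith
      exact h7.trans (mul_le_mul h4 h5 hk0 (Real.exp_pos _).le)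
    rw [hρ, h2, ← div_eq_mul_inv, le_div_iff₀ (by positivity)]
    calc Real.exp (n * (x - ε)) * (32 * (k + 1) * L)
        ≤ Real.exp (n * (x - ε)) * (Real.exp (n * (ε / 2)) * L) := by
          refine mul_le_mul_of_nonneg_left ?_ (Real.exp_pos _).le
          exact mul_le_mul_of_nonneg_right h3 hL0.le
      _ = Real.exp (n * Real.log 2) := by
          rw [hL, ← Real.exp_add, ← Real.exp_add]
          congr 1
          ring
  calc Real.exp (n * (x - ε)) * ∑ u, w u ≤ 2 ^ n * ρ * ∑ u, w u :=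
        mul_le_mul_of_nonneg_right hexp hw0
    _ = 2 ^ n * (ρ * ∑ u, w u) := by ring
    _ ≤ 2 ^ n * SW n d k w := mul_le_mul_of_nonneg_left hval (by positivity)

/-- comparison with the linear program -/
lemma le_LP (hk : 2 ≤ k) (hd : 1 ≤ d) : SW n d k (fun _ => 1) ≤ FINf.LPv n d := by
  refine le_csInf ⟨_, _, DELf.feas_one hd, rfl⟩ ?_
  rintro v ⟨l, hl, rfl⟩
  refine csSup_le ⟨_, _, pc_code ∅ (by simp), rfl⟩ ?_
  rintro v ⟨y, hy, rfl⟩
  simp only [one_mul]
  exact hy.le_lp k7_chr hk hl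

end Pool.Agent.Q102.KB
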